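import Pool.Agent.W602.RG.Defs

/-! Statements of the independent parts. -/

set_option autoImplicit false

open FF MvPolynomial Pool.Agent.W603.LV Pool.Agent.W603.PV

namespace Pool.Agent.W602.RG

/-- ISF: a constant field extension of a function field is a function field. -/
def S_ISF : Prop := ∀ (k L Ω E : Type) [Field k] [Field L] [Field Ω] [Field E] [Algebra k L]
    [Algebra k Ω] [Algebra k E] [Algebra L E] [Algebra Ω E] [IsAlgClosed k] [CharZero k]
    [IsFF k L], BC k L Ω E → IsFF Ω E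

/-- EXT: a derivation of the field of constants extends. -/
def S_EXT : Prop := ∀ (k L Ω E : Type) [Field k] [Field L] [Field Ω] [Field E] [Algebra k L]
    [Algebra k Ω] [Algebra k E] [Algebra L E] [Algebra Ω E], BC k L Ω E →
    ∀ D0 : Derivation k Ω Ω, ∃ D : Derivation L E E,
      ∀ ω, D (algebraMap Ω E ω) = algebraMap Ω E (D0 ω)

/-- DER: a derivation that does not vanish at a given transcendental element. -/
def S_DER : Prop := ∀ (k Ω : Type) [Field k] [Field Ω] [Algebra k Ω] [CharZero k] (θ : Ω),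
    Transcendental k θ → ∃ D0 : Derivation k Ω Ω, D0 θ ≠ 0

/-- RGC: regularity at the places above places of `L`. -/
def S_RGC : Prop := ∀ (k L Ω E : Type) [Field k] [Field L] [Field Ω] [Field E] [Algebra k L]
    [Algebra k Ω] [Algebra k E] [Algebra L E] [Algebra Ω E] [IsAlgClosed k] [CharZero k]
    [IsFF k L] [IsFF Ω E], BC k L Ω E → ∀ (D : Derivation L E E) (D0 : Derivation k Ω Ω),
    (∀ ω, D (algebraMap Ω E ω) = algebraMap Ω E (D0 ω)) → ∀ P : Place Ω E,
    (∃ l : L, P.ord (algebraMap L E l) ≠ 0) → Reg0 D P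

/-- RGM: regularity at the other places. -/
def S_RGM : Prop := ∀ (k L Ω E : Type) [Field k] [Field L] [Field Ω] [Field E] [Algebra k L]
    [Algebra k Ω] [Algebra k E] [Algebra L E] [Algebra Ω E] [IsAlgClosed k] [CharZero k]
    [IsFF k L] [IsAlgClosed Ω] [CharZero Ω] [IsFF Ω E], BC k L Ω E →
    ∀ (D : Derivation L E E) (D0 : Derivation k Ω Ω),
    (∀ ω, D (algebraMap Ω E ω) = algebraMap Ω E (D0 ω)) → ∀ P : Place Ω E,
    (∀ l : L, P.ord (algebraMap L E l) = 0) → Reg0 D P ∨ Mov D P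

/-- WNZ: the Wronskian theorem. -/
def S_WNZ : Prop := ∀ (L E : Type) [Field L] [Field E] [Algebra L E] [CharZero L]
    (D : Derivation L E E) (r : ℕ) (g : Fin r → E),
    (∀ c : Fin r → E, (∀ i, D (c i) = 0) → ∑ i, c i * g i = 0 → ∀ i, c i = 0) → Wr D g ≠ 0

/-- WSC: the Wronskian of `h g`. -/
def S_WSC : Prop := ∀ (L E : Type) [Field L] [Field E] [Algebra L E] (D : Derivation L E E)
    (r : ℕ) (h : E) (g : Fin r → E), Wr D (fun i => h * g i) = h ^ r * Wr D g

/-- WSW: the Wronskians of the `r`-element subfamilies of a family with sum zero. -/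
def S_WSW : Prop := ∀ (L E : Type) [Field L] [Field E] [Algebra L E] (D : Derivation L E E)
    (r : ℕ) (g : Fin (r + 1) → E), ∑ i, g i = 0 → ∀ i j : Fin (r + 1),
    Wr D (fun l => g (i.succAbove l)) = Wr D (fun l => g (j.succAbove l)) ∨
      Wr D (fun l => g (i.succAbove l)) = - Wr D (fun l => g (j.succAbove l))

/-- LC0: the order of a Wronskian at a place where `D` is regular. -/
def S_LC0 : Prop := ∀ (L Ω E : Type) [Field L] [Field Ω] [Field E] [Algebra L E] [Algebra Ω E]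
    [CharZero E] (D : Derivation L E E) (P : Place Ω E), Reg0 D P → ∀ (r : ℕ) (g : Fin r → E),
    (∀ i, g i ≠ 0) → Wr D g ≠ 0 → ∑ i, P.ord (g i) ≤ P.ord (Wr D g)

/-- LCM: the order of a Wronskian at the other places. -/
def S_LCM : Prop := ∀ (L Ω E : Type) [Field L] [Field Ω] [Field E] [Algebra L E] [Algebra Ω E]
    [CharZero E] (D : Derivation L E E) (P : Place Ω E), Mov D P → ∀ (r : ℕ) (g : Fin r → E)
    (m : ℤ), (∀ i, g i ≠ 0) → (∀ i, m ≤ P.ord (g i)) → Wr D g ≠ 0 →
    ∑ i, P.ord (g i) - ((r : ℤ) - 1) * (Finset.univ.filter fun i => m < P.ord (g i)).card ≤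
      P.ord (Wr D g)

/-- CIR: minimal relations over the constants, all of whose terms are powers at the moving
places. -/
def S_CIR : Prop := ∀ (L Ω E : Type) [Field L] [Field Ω] [Field E] [Algebra L E] [Algebra Ω E]
    [CharZero L] [CharZero Ω] [IsAlgClosed Ω] [IsFF Ω E] (D : Derivation L E E),
    (∀ P : Place Ω E, Reg0 D P ∨ Mov D P) → ∀ (r N : ℕ), 0 < N → r ^ 2 ≤ N →
    ∀ (g a : Fin (r + 1) → E), (∀ i, g i ≠ 0) → (∀ i, a i ≠ 0) → (∀ i, D (a i) = 0) →
    ∑ i, a i * g i = 0 →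
    (∀ c : Fin (r + 1) → E, (∀ i, D (c i) = 0) → (∃ i, c i = 0) → ∑ i, c i * g i = 0 →
      ∀ i, c i = 0) →
    (∀ P : Place Ω E, Mov D P → ∀ i j, (N : ℤ) ∣ P.ord (g i) - P.ord (g j)) →
    ∀ (P : Place Ω E) (i j : Fin (r + 1)), P.ord (a i * g i) = P.ord (a j * g j)

/-- CLS: relations split along the classes of `Rel`. -/
def S_CLS : Prop := ∀ (L Ω E α : Type) [Field L] [Field Ω] [Field E] [Algebra L E] [Algebra Ω E]
    [CharZero L] [CharZero Ω] [IsAlgClosed Ω] [IsFF Ω E] (D : Derivation L E E),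
    (∀ P : Place Ω E, Reg0 D P ∨ Mov D P) → ∀ (J : Finset α) (N : ℕ), 0 < N →
    (J.card - 1) ^ 2 ≤ N → ∀ (M c : α → E), (∀ i ∈ J, M i ≠ 0) → (∀ i ∈ J, D (c i) = 0) →
    ∑ i ∈ J, c i * M i = 0 →
    (∀ P : Place Ω E, Mov D P → ∀ i ∈ J, ∀ j ∈ J, (N : ℤ) ∣ P.ord (M i) - P.ord (M j)) →
    ∀ (j0 : α) (T : Finset α), j0 ∈ J → (∀ i, i ∈ T ↔ i ∈ J ∧ Rel Ω D (M i) (M j0)) →
      ∑ i ∈ T, c i * M i = 0

/-- QLF: integral weights from a relation in a rational vector space. -/
def S_QLF : Prop := ∀ (V : Type) [AddCommGroup V] [Module ℚ V] (m : ℕ) (a : Fin m → V)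
    (Q : Set (Fin m → ℤ)), (∀ q ∈ Q, ∑ j, q j • a j = 0) → ∀ i j, a i ≠ a j →
    ∃ b : Fin m → ℤ, b i ≠ b j ∧ ∀ q ∈ Q, ∑ l, q l * b l = 0

/-- GAC: the ultrapower of an algebraically closed field is algebraically closed. -/
def S_GAC : Prop := ∀ (k : Type) [Field k] [IsAlgClosed k], IsAlgClosed (Om k)

/-- GTR: an injective sequence is transcendental. -/
def S_GTR : Prop := ∀ (k : Type) [Field k] [IsAlgClosed k] (θ : ℕ → k), Function.Injective θ →
    Transcendental k (Om.mk θ)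

/-- GBC: the constant field extension inside the ultrapower. -/
def S_GBC : Prop := ∀ (k L : Type) [Field k] [Field L] [Algebra k L], BC k L (Om k) (EE k L)

/-- GPL: the places of the constant field extension above the places of `L`. -/
def S_GPL : Prop := ∀ (k L : Type) [Field k] [Field L] [Algebra k L] [IsAlgClosed k] [CharZero k]
    [IsFF k L] (p : Place k L), ∃ P : Place (Om k) (EE k L),
    (∃ l : L, P.ord (algebraMap L (EE k L) l) ≠ 0) ∧
    ∀ (g : EE k L) (u : ℕ → L), (g : Om L) = Om.mk u → (∀ m, u m = 0 ∨ 0 < p.ord (u m)) →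
      g = 0 ∨ 0 < P.ord g

/-- GSP: sequences in a finite dimensional space. -/
def S_GSP : Prop := ∀ (k L : Type) [Field k] [Field L] [Algebra k L] (V : Submodule k L),
    FiniteDimensional k V → ∀ u : ℕ → L, (∀ m, u m ∈ V) → Om.mk u ∈ EE k L

/-- RIE: maps of bounded degree have homogeneous coordinates in one finite dimensional space. -/
def S_RIE : Prop := ∀ (k L : Type) [Field k] [Field L] [Algebra k L] [IsAlgClosed k] [CharZero k]
    [IsFF k L] (n : ℕ) (B : ℤ), ∃ V : Submodule k L, FiniteDimensional k V ∧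
    ∀ f : Fin (n + 1) → L, (∃ j, f j ≠ 0) → pht k f ≤ B → ∃ φ : L, φ ≠ 0 ∧ ∀ j, φ * f j ∈ V

/-- UNI: finitely many units of bounded degree with a given value at a point. -/
def S_UNI : Prop := ∀ (k L : Type) [Field k] [Field L] [Algebra k L] [IsAlgClosed k] [CharZero k]
    [IsFF k L] (S : Finset (Place k L)) (c : Place k L) (B : ℤ) (x : k), c ∉ S → x ≠ 0 →
    {u : L | u ≠ 0 ∧ (∀ P ∉ S, P.ord u = 0) ∧ hgt k u ≤ B ∧
      (u = algebraMap k L x ∨ 0 < c.ord (u - algebraMap k L x))}.Finite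

/-- SEQ: an infinite set of functions of bounded degree takes infinitely many values at some
point. -/
def S_SEQ : Prop := ∀ (k L : Type) [Field k] [Field L] [Algebra k L] [IsAlgClosed k] [CharZero k]
    [IsFF k L] (B : ℤ) (M : Set L), M.Infinite → (∀ u ∈ M, hgt k u ≤ B) →
    ∃ (p : Place k L) (u : ℕ → L) (θ : ℕ → k), (∀ m, u m ∈ M) ∧ Function.Injective θ ∧
      ∀ m, u m = algebraMap k L (θ m) ∨ 0 < p.ord (u m - algebraMap k L (θ m))

end Pool.Agent.W602.RG
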