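import Pool.Agent.W602.GT.KGen

/-! Additive flows from solutions of linear systems at the generic point. -/

set_option autoImplicit false

open FF IntermediateField Pool.Agent.W603.LV Pool.Agent.W602.GT

namespace Pool.Agent.W602.RG

variable {k : Type} [Field k] {n : ℕ} {ι : Type}

/-- **Additive flows.** A component whose generic point satisfies linear equations which imply the
equations `F`, and which have another solution `v`, is generated by a transcendental element over a
subfield. -/
theorem flow_of_vec [IsAlgClosed k] {F : ι → MvPolynomial (Fin (n + 1)) k}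
    {K : Type} [Field K] [Algebra k K] {w : ℕ} {y : Fin (n + 1) → K} (hy : SubVar F K w y)
    (hcomp : IsComponent F y) (Z : Set (Fin (n + 1) → k))
    (Q : Set ((Fin (n + 1) → k) × (Fin (n + 1) → k))) (hZ : ∀ l ∈ Z, lin l y = 0)
    (hQ : ∀ p ∈ Q, lin p.1 y ≠ 0 ∧ lin p.2 y ≠ 0)
    (hx : ∀ (M : Type) [Field M] [Algebra k M] [Algebra K M] [IsScalarTower k K M]
        (x : Fin (n + 1) → M), (∀ l ∈ Z, lin l x = 0) →
        (∀ p ∈ Q, lin p.1 x = algebraMap K M (lin p.1 y / lin p.2 y) * lin p.2 x) →
        ∀ e, val x (F e) = 0)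
    (v : Fin (n + 1) → K) (i0 j0 : Fin (n + 1)) (hi0 : y i0 ≠ 0) (hv0 : v i0 = 0)
    (hvj : v j0 ≠ 0) (hZv : ∀ l ∈ Z, lin l v = 0)
    (hQv : ∀ p ∈ Q, lin p.1 v = (lin p.1 y / lin p.2 y) * lin p.2 v) :
    ∃ C : IntermediateField k K, Transcendental C (y j0 / y i0) ∧ C⟮y j0 / y i0⟯ = ⊤ := by
  classical
  set E : IntermediateField k K := IntermediateField.adjoin k
    {z | ∃ p ∈ Q, z = lin p.1 y / lin p.2 y} with hE
  have hrE : ∀ p ∈ Q, lin p.1 y / lin p.2 y ∈ E := fun p hp =>
    IntermediateField.subset_adjoin k _ ⟨p, hp, rfl⟩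
  -- a vector defined over `E`
  obtain ⟨ℓ, hℓ⟩ : ∃ ℓ : K →ₗ[E] E, ℓ (v j0) ≠ 0 := by
    by_contra hcon
    push Not at hcon
    exact hvj ((Module.forall_dual_apply_eq_zero_iff E (v j0)).1 hcon)
  let e : Fin (n + 1) → E := fun l => ℓ (v l) / ℓ (v j0)
  have heJ : (e j0 : K) = 1 := by
    simp only [e]
    rw [div_self hℓ]
    rfl
  have heI : (e i0 : K) = 0 := by
    simp only [e]
    rw [hv0, map_zero, zero_div]
    rfl
  have hle : ∀ l : Fin (n + 1) → k, lin l (fun i => (e i : K)) = ((ℓ (lin l v) / ℓ (v j0) : E) : K) := by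
    intro l
    unfold lin
    rw [map_sum]
    have h1 : ∀ i, ℓ (algebraMap k K (l i) * v i) = algebraMap k E (l i) * ℓ (v i) := by
      intro i
      have h2 : algebraMap k K (l i) * v i = (algebraMap k E (l i)) • v i := by
        rw [Algebra.smul_def]
        rfl
      rw [h2, map_smul, smul_eq_mul]
    simp only [h1]
    rw [Finset.sum_div]
    push_cast
    refine Finset.sum_congr rfl fun i _ => ?_
    simp only [e]
    push_cast
    rw [mul_div_assoc]
  have hZe : ∀ l ∈ Z, lin l (fun i => (e i : K)) = 0 := by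
    intro l hl
    rw [hle, hZv l hl, map_zero, zero_div]
    rfl
  have hQe : ∀ p ∈ Q, lin p.1 (fun i => (e i : K)) =
      (lin p.1 y / lin p.2 y) * lin p.2 (fun i => (e i : K)) := by
    intro p hp
    rw [hle, hle, hQv p hp]
    have h2 : (lin p.1 y / lin p.2 y) * lin p.2 v =
        (⟨lin p.1 y / lin p.2 y, hrE p hp⟩ : E) • lin p.2 v := by
      rw [Algebra.smul_def]
      rfl
    rw [h2, map_smul, smul_eq_mul, mul_div_assoc]
    rfl
  -- the flow
  have hinj : Function.Injective (algebraMap (Polynomial K) (RatFunc K)) :=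
    RatFunc.algebraMap_injective K
  let P : Fin (n + 1) → Polynomial K := fun l =>
    Polynomial.C (y l) + Polynomial.C (y i0 * e l) * Polynomial.X
  let y' : Fin (n + 1) → RatFunc K := fun l => algebraMap (Polynomial K) (RatFunc K) (P l)
  have hC : ∀ c : K, algebraMap (Polynomial K) (RatFunc K) (Polynomial.C c) =
      algebraMap K (RatFunc K) c := fun c => by
    rw [IsScalarTower.algebraMap_apply K (Polynomial K) (RatFunc K)]
    rfl
  have hy'l : ∀ l, y' l = 1 * algebraMap K (RatFunc K) (y l) +
      RatFunc.X * algebraMap K (RatFunc K) (y i0) * algebraMap K (RatFunc K) (e l) := by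
    intro l
    simp only [y', P]
    rw [map_add, map_mul, hC, hC, RatFunc.algebraMap_X, map_mul]
    ring
  have hliny' : ∀ l : Fin (n + 1) → k, lin l y' = algebraMap K (RatFunc K) (lin l y) +
      RatFunc.X * algebraMap K (RatFunc K) (y i0) *
        algebraMap K (RatFunc K) (lin l (fun i => (e i : K))) := by
    intro l
    have h1 : y' = fun i => 1 * algebraMap K (RatFunc K) (y i) +
      (RatFunc.X * algebraMap K (RatFunc K) (y i0)) * algebraMap K (RatFunc K) (e i) := by
      funext i
      exact hy'l i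
    have h2 : ∀ x : Fin (n + 1) → K, algebraMap K (RatFunc K) (lin l x) =
        lin l (fun i => algebraMap K (RatFunc K) (x i)) := fun x =>
      lin_map (IsScalarTower.toAlgHom k K (RatFunc K)) l x
    rw [h1, lin_add_smul, h2, h2]
    ring
  have hyF : ∀ a, val y' (F a) = 0 := by
    refine hx (RatFunc K) y' (fun l hl => ?_) (fun p hp => ?_)
    · rw [hliny', hZ l hl, hZe l hl, map_zero, mul_zero, add_zero]
    · rw [hliny', hliny', hQe p hp]
      obtain ⟨h1, h2⟩ := hQ p hp
      have h3 : algebraMap K (RatFunc K) (lin p.2 y) ≠ 0 := by rw [Ne, map_eq_zero]; exact h2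
      rw [map_mul, map_div₀]
      field_simp
  have hspec : ∀ G : MvPolynomial (Fin (n + 1)) k, IsForm G → val y' G = 0 → val y G = 0 := by
    intro G _ h1
    obtain ⟨R, hR1, hR2⟩ := val_polyK P G
    have h2 : R = 0 := hinj (by rw [hR2, map_zero]; exact h1)
    have h3 := hR1 0
    rw [h2, Polynomial.eval_zero] at h3
    have h4 : (fun l => (P l).eval 0) = y := by
      funext l
      simp [P]
    rw [h4] at h3
    exact h3.symm
  have hy'i : y' i0 = algebraMap K (RatFunc K) (y i0) := by
    rw [hy'l, heI, map_zero]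
    ring
  have hyi' : algebraMap K (RatFunc K) (y i0) ≠ 0 := by rw [Ne, map_eq_zero]; exact hi0
  have hy'i0 : y' i0 ≠ 0 := by rw [hy'i]; exact hyi'
  obtain ⟨φ, hφ⟩ := exists_embedding (L := RatFunc K) hi0 hy'i0 hy.gen
    (same_relations hcomp (fun h1 => hy'i0 (congrFun h1 i0)) hyF hspec)
  let u : Fin (n + 1) → K := fun l => y l / y i0
  have hφu : ∀ l, φ (u l) = algebraMap K (RatFunc K) (u l) +
      RatFunc.X * algebraMap K (RatFunc K) (e l) := by
    intro l
    simp only [u]
    rw [hφ, hy'i, hy'l, map_div₀]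
    field_simp
  have hφE : ∀ x ∈ E, φ x = algebraMap K (RatFunc K) x := by
    intro x hx
    induction hx using IntermediateField.adjoin_induction with
    | mem x hx =>
      obtain ⟨p, hp, rfl⟩ := hx
      obtain ⟨h1, h2⟩ := hQ p hp
      have h3 : ∀ l : Fin (n + 1) → k, lin l u = lin l y / y i0 := fun l => lin_div l y (y i0)
      have h4 : lin p.1 y / lin p.2 y = lin p.1 u / lin p.2 u := by
        rw [h3, h3]
        field_simp
      have h5 : ∀ l : Fin (n + 1) → k, φ (lin l u) = algebraMap K (RatFunc K) (lin l u) +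
          RatFunc.X * algebraMap K (RatFunc K) (lin l (fun i => (e i : K))) := by
        intro l
        have h6 : ∀ x : Fin (n + 1) → K, algebraMap K (RatFunc K) (lin l x) =
            lin l (fun i => algebraMap K (RatFunc K) (x i)) := fun x =>
          lin_map (IsScalarTower.toAlgHom k K (RatFunc K)) l x
        rw [lin_map, h6, h6]
        have h7 := lin_add_smul l (fun i => algebraMap K (RatFunc K) (u i))
          (fun i => algebraMap K (RatFunc K) (e i)) 1 RatFunc.X
        simp only [one_mul] at h7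
        rw [← h7]
        congr 1
        funext i
        exact hφu i
      have hu2 : lin p.2 u ≠ 0 := by rw [h3]; exact div_ne_zero h2 hi0
      have h6 : φ (lin p.2 u) ≠ 0 := by rw [Ne, map_eq_zero]; exact hu2
      have h7 : φ (lin p.1 u) = algebraMap K (RatFunc K) (lin p.1 u / lin p.2 u) *
          φ (lin p.2 u) := by
        rw [h5, h5, hQe p hp, h4]
        have h8 : algebraMap K (RatFunc K) (lin p.2 u) ≠ 0 := by rw [Ne, map_eq_zero]; exact hu2
        rw [map_mul, map_div₀]
        field_simp
      rw [h4, map_div₀, h7]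
      field_simp
    | algebraMap c =>
      rw [φ.commutes]
      exact IsScalarTower.algebraMap_apply k K (RatFunc K) c
    | add x y _ _ hx hy => rw [map_add, map_add, hx, hy]
    | inv x _ hx => rw [map_inv₀, map_inv₀, hx]
    | mul x y _ _ hx hy => rw [map_mul, map_mul, hx, hy]
  let z : Fin (n + 1) → K := fun l => u l - e l * u j0
  have hφz : ∀ l, φ (z l) = algebraMap K (RatFunc K) (z l) := by
    intro l
    simp only [z]
    rw [map_sub, map_mul, hφu, hφu, hφE _ (e l).2, heJ, map_sub, map_mul, map_one]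
    ring
  set C : IntermediateField k K := IntermediateField.adjoin k
    ((E : Set K) ∪ Set.range z) with hCdef
  have hEC : E ≤ C := fun x hx => IntermediateField.subset_adjoin k _ (Or.inl hx)
  have hzC : ∀ l, z l ∈ C := fun l => IntermediateField.subset_adjoin k _ (Or.inr ⟨l, rfl⟩)
  have hφC : ∀ x ∈ C, φ x = algebraMap K (RatFunc K) x := by
    intro x hx
    induction hx using IntermediateField.adjoin_induction with
    | mem x hx =>
      rcases hx with hx | ⟨l, rfl⟩
      · exact hφE x hx
      · exact hφz l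
    | algebraMap c =>
      rw [φ.commutes]
      exact IsScalarTower.algebraMap_apply k K (RatFunc K) c
    | add x y _ _ hx hy => rw [map_add, map_add, hx, hy]
    | inv x _ hx => rw [map_inv₀, map_inv₀, hx]
    | mul x y _ _ hx hy => rw [map_mul, map_mul, hx, hy]
  refine ⟨C, ?_, ?_⟩
  · intro halg
    let φ' : K →ₐ[C] RatFunc K := { φ with
      commutes' := fun c => by
        change φ (c : K) = _
        rw [hφC _ c.2]
        rfl }
    have h1 : IsAlgebraic C (φ' (u j0)) := halg.algHom φ'
    have h2 : IsAlgebraic K (φ' (u j0)) := h1.tower_top K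
    have h3 : φ' (u j0) = algebraMap K (RatFunc K) (u j0) + RatFunc.X := by
      change φ (u j0) = _
      rw [hφu, heJ, map_one, mul_one]
    rw [h3] at h2
    have h4 := h2.sub (isAlgebraic_algebraMap (A := RatFunc K) (u j0))
    rw [add_sub_cancel_left] at h4
    exact RatFunc.transcendental_X h4
  · have h1 : (C⟮u j0⟯).restrictScalars k = ⊤ := by
      rw [eq_top_iff, ← hy.gen]
      unfold coords
      rw [IntermediateField.adjoin_le_iff]
      have hu : ∀ l, u l ∈ C⟮u j0⟯ := by
        intro l
        have h2 : u l = z l + e l * u j0 := by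
          simp only [z]
          ring
        rw [h2]
        refine add_mem ?_ (mul_mem ?_ (IntermediateField.mem_adjoin_simple_self _ _))
        · exact (C⟮u j0⟯).algebraMap_mem (⟨z l, hzC l⟩ : C)
        · exact (C⟮u j0⟯).algebraMap_mem (⟨e l, hEC (e l).2⟩ : C)
      rintro _ ⟨a, b, hb, rfl⟩
      have h3 := div_mem (hu a) (hu b)
      simp only [u] at h3
      have h4 : y a / y i0 / (y b / y i0) = y a / y b := by field_simp
      rw [h4] at h3
      exact h3
    rw [eq_top_iff]
    intro x _
    have h2 : x ∈ (C⟮u j0⟯).restrictScalars k := by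
      rw [h1]; exact IntermediateField.mem_top
    exact h2

/-- the varieties in `flow_of_vec` are not of general type -/
theorem not_general_of_vec [IsAlgClosed k] [CharZero k] {F : ι → MvPolynomial (Fin (n + 1)) k}
    {K : Type} [Field K] [Algebra k K] {w : ℕ} {y : Fin (n + 1) → K} (hy : SubVar F K w y)
    (hcomp : IsComponent F y) (Z : Set (Fin (n + 1) → k))
    (Q : Set ((Fin (n + 1) → k) × (Fin (n + 1) → k))) (hZ : ∀ l ∈ Z, lin l y = 0)
    (hQ : ∀ p ∈ Q, lin p.1 y ≠ 0 ∧ lin p.2 y ≠ 0)
    (hx : ∀ (M : Type) [Field M] [Algebra k M] [Algebra K M] [IsScalarTower k K M]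
        (x : Fin (n + 1) → M), (∀ l ∈ Z, lin l x = 0) →
        (∀ p ∈ Q, lin p.1 x = algebraMap K M (lin p.1 y / lin p.2 y) * lin p.2 x) →
        ∀ e, val x (F e) = 0)
    (v : Fin (n + 1) → K) (i0 : Fin (n + 1)) (hi0 : y i0 ≠ 0) (hv0 : v i0 = 0)
    (hv : v ≠ 0) (hZv : ∀ l ∈ Z, lin l v = 0)
    (hQv : ∀ p ∈ Q, lin p.1 v = (lin p.1 y / lin p.2 y) * lin p.2 v) :
    ¬ GeneralType k K w := by
  obtain ⟨j0, hj0⟩ := Function.ne_iff.1 hv
  obtain ⟨C, h1, h2⟩ := flow_of_vec hy hcomp Z Q hZ hQ hx v i0 j0 hi0 hv0 hj0 hZv hQv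
  exact fun h => not_psef_of hy.dim C h1 h2 (psef_of_kodGe (kod_of_general h))

end Pool.Agent.W602.RG
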