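import Pool.Agent.W602.RG.Rig
import Pool.Agent.W215.RG.ISF
import Pool.Agent.W797.RG.EXT
import Pool.Agent.W160.RG.DER
import Pool.Agent.W215.RG.RGC
import Pool.Agent.W440.RG.RGM
import Pool.Agent.W924.RG.WNZ
import Pool.Agent.W347.RG.WSC
import Pool.Agent.W340.RG.WSW
import Pool.Agent.W91.RG.LC0
import Pool.Agent.W621.RG.LCM
import Pool.Agent.W724.RG.CIR
import Pool.Agent.W699.RG.CLS
import Pool.Agent.W150.RG.QLF
import Pool.Agent.W917.RG.GAC
import Pool.Agent.W32.RG.GTR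
import Pool.Agent.W736.RG.GBC
import Pool.Agent.W374.RG.GPL
import Pool.Agent.W61.RG.GSP
import Pool.Agent.W369.RG.RIE
import Pool.Agent.W975.RG.UNI
import Pool.Agent.W764.RG.Seq

/-! The rigidity theorem, without hypotheses on the parts. -/

set_option autoImplicit false

open FF MvPolynomial Pool.Agent.W603.LV Pool.Agent.W603.PV Pool.Agent.W603.CX

namespace Pool.Agent.W602.RG

theorem cls_all : S_CLS :=
  Pool.Agent.W699.RG.CLS.main (Pool.Agent.W724.RG.CIR.main Pool.Agent.W924.RG.WNZ.main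
    Pool.Agent.W340.RG.WSW.main Pool.Agent.W91.RG.main Pool.Agent.W621.RG.LCM.main)

theorem rigid_all
    {k L : Type} [Field k] [Field L] [Algebra k L] [IsAlgClosed k] [CharZero k] [IsFF k L]
    {n : ℕ} {ι : Type} (U : Set (Fin (n + 1))) (F : ι → MvPolynomial (Fin (n + 1)) k)
    (hF : ∀ i, ∃ d, (F i).IsHomogeneous d) (hC : ∀ i, PowerSparse U (F i))
    (S : Finset (Place k L)) (c : Place k L) (hc : c ∉ S) (x : Fin (n + 1) → k)
    (hxU : ∀ j ∈ U, x j ≠ 0) (j0 : Fin (n + 1)) (hj0 : x j0 ≠ 0)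
    (hj0U : (∃ j, j ∈ U) → j0 ∈ U) (B : ℤ) (M : Set (Fin (n + 1) → L)) (hinf : M.Infinite)
    (hM : ∀ f ∈ M, f j0 = 1 ∧ IsMap U F S f ∧ (∀ j, f j = 0 ↔ x j = 0) ∧
      (∀ j, x j ≠ 0 → f j = algebraMap k L (x j / x j0) ∨
        0 < c.ord (f j - algebraMap k L (x j / x j0))) ∧ pht k f ≤ B) : Conc F x :=
  rigid Pool.Agent.W215.RG.ISF.main Pool.Agent.W797.RG.main Pool.Agent.W160.RG.DER.main
    Pool.Agent.W215.RG.RGC.main Pool.Agent.W440.RG.RGM.main cls_all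
    Pool.Agent.W150.RG.QLF.main Pool.Agent.W917.RG.GAC.main Pool.Agent.W32.RG.GTR.main
    Pool.Agent.W736.RG.main Pool.Agent.W374.RG.GPL.main Pool.Agent.W61.RG.GSP.main
    Pool.Agent.W369.RG.RIE.main Pool.Agent.W975.RG.main Pool.Agent.W764.RG.Seq.main
    U F hF hC S c hc x hxU j0 hj0 hj0U B M hinf hM

end Pool.Agent.W602.RG
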