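import Pool.Agent.W602.RG.Stm

/-! A nonconstant family of pointed maps gives a one-parameter group: the abstract form. -/

set_option autoImplicit false

open FF MvPolynomial Pool.Agent.W603.LV Pool.Agent.W603.PV

namespace Pool.Agent.W602.RG

variable {k L Ω E : Type} [Field k] [Field L] [Field Ω] [Field E] [Algebra k L]
    [Algebra k Ω] [Algebra k E] [Algebra L E] [Algebra Ω E]

section basics

variable (P : Place Ω E)

theorem ord_prod {ι : Type*} (s : Finset ι) (f : ι → E) (a : ι → ℕ)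
    (h : ∀ i ∈ s, a i ≠ 0 → f i ≠ 0) :
    P.ord (∏ i ∈ s, f i ^ a i) = ∑ i ∈ s, (a i : ℤ) * P.ord (f i) := by
  classical
  induction s using Finset.induction_on with
  | empty => simp [P.ord_one]
  | insert i s hi ih =>
    have h1 : ∀ j ∈ insert i s, f j ^ a j ≠ 0 := by
      intro j hj
      by_cases h0 : a j = 0
      · rw [h0, pow_zero]; exact one_ne_zero
      · exact pow_ne_zero _ (h j hj h0)
    rw [Finset.prod_insert hi, Finset.sum_insert hi, P.ord_mul (h1 i (Finset.mem_insert_self _ _))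
      (Finset.prod_ne_zero_iff.2 fun j hj => h1 j (Finset.mem_insert_of_mem hj)), P.ord_pow,
      ih fun j hj => h j (Finset.mem_insert_of_mem hj)]

/-- logarithmic derivatives -/
noncomputable def ld (D : Derivation L E E) (x : E) : E := D x / x

theorem ld_mul (D : Derivation L E E) {x y : E} (hx : x ≠ 0) (hy : y ≠ 0) :
    ld D (x * y) = ld D x + ld D y := by
  unfold ld
  rw [D.leibniz]
  simp only [smul_eq_mul]
  field_simp
  ring

theorem ld_one (D : Derivation L E E) : ld D 1 = 0 := by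
  unfold ld
  rw [D.map_one_eq_zero, zero_div]

theorem ld_pow (D : Derivation L E E) {x : E} (hx : x ≠ 0) (m : ℕ) :
    ld D (x ^ m) = m * ld D x := by
  induction m with
  | zero => simp [ld_one]
  | succ m ih => rw [pow_succ, ld_mul D (pow_ne_zero _ hx) hx, ih]; push_cast; ring

theorem ld_prod (D : Derivation L E E) {ι : Type*} (s : Finset ι) (f : ι → E) (a : ι → ℕ)
    (h : ∀ i ∈ s, a i ≠ 0 → f i ≠ 0) :
    ld D (∏ i ∈ s, f i ^ a i) = ∑ i ∈ s, (a i : E) * ld D (f i) := by
  classical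
  induction s using Finset.induction_on with
  | empty => simp [ld_one]
  | insert i s hi ih =>
    have h1 : ∀ j ∈ insert i s, f j ^ a j ≠ 0 := by
      intro j hj
      by_cases h0 : a j = 0
      · rw [h0, pow_zero]; exact one_ne_zero
      · exact pow_ne_zero _ (h j hj h0)
    rw [Finset.prod_insert hi, Finset.sum_insert hi, ld_mul D (h1 i (Finset.mem_insert_self _ _))
      (Finset.prod_ne_zero_iff.2 fun j hj => h1 j (Finset.mem_insert_of_mem hj)),
      ih fun j hj => h j (Finset.mem_insert_of_mem hj)]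
    congr 1
    by_cases h0 : a i = 0
    · rw [h0]; simp [ld_one]
    · exact ld_pow D (h i (Finset.mem_insert_self _ _) h0) _

theorem ord_ratio_zero [CharZero k] {ρ : E} {c : k} (hc : c ≠ 0) (hk : IsScalarTower k Ω E)
    (h : ρ = algebraMap k E c ∨ 0 < P.ord (ρ - algebraMap k E c)) : ρ ≠ 0 ∧ P.ord ρ = 0 := by
  have h0 : P.ord (algebraMap k E c) = 0 := by
    rw [IsScalarTower.algebraMap_apply k Ω E]
    exact P.ord_const (by simpa using hc)
  have h0' : algebraMap k E c ≠ 0 := by simpa using hc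
  rcases h with h | h
  · rw [h]; exact ⟨h0', h0⟩
  · by_cases h1 : ρ - algebraMap k E c = 0
    · rw [sub_eq_zero] at h1
      rw [h1]; exact ⟨h0', h0⟩
    · have h2 := P.ord_add_eq (f := algebraMap k E c) (g := ρ - algebraMap k E c) h0' h1
        (by rw [h0]; exact h)
      rw [add_sub_cancel] at h2
      exact ⟨h2.1, by rw [h2.2, h0]⟩

end basics


/-- There are weights, orthogonal to a set of differences of exponents of the equations, such that
the corresponding one-parameter groups map the point `x` to points of `X`. -/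
def Conc {n : ℕ} {ι : Type} (F : ι → MvPolynomial (Fin (n + 1)) k) (x : Fin (n + 1) → k) : Prop :=
  ∃ Q : Set (Fin (n + 1) → ℤ), (∀ q ∈ Q, ∃ i, ∃ α ∈ (F i).support, ∃ β ∈ (F i).support,
    ∀ j, q j = (α j : ℤ) - β j) ∧
    (∃ b : Fin (n + 1) → ℤ, (∀ q ∈ Q, ∑ l, q l * b l = 0) ∧ ∃ i j, x i ≠ 0 ∧ x j ≠ 0 ∧ b i ≠ b j) ∧
    ∀ b : Fin (n + 1) → ℤ, (∀ q ∈ Q, ∑ l, q l * b l = 0) → ∀ i (v : ℤ),
      ∑ α ∈ (F i).support.filter (fun α => ∑ j, (α j : ℤ) * b j = v),
        (F i).coeff α * ∏ j, x j ^ α j = 0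

/-- the reduction step -/
theorem reduce [CharZero k] {n : ℕ} (hk : IsScalarTower k Ω E) (P : Place Ω E)
    (x : Fin (n + 1) → k) (f : Fin (n + 1) → E) (j0 : Fin (n + 1)) (hj0 : x j0 ≠ 0)
    (hfj0 : f j0 ≠ 0) (T : Finset (Fin (n + 1) →₀ ℕ)) (c : (Fin (n + 1) →₀ ℕ) → k) (d : ℕ)
    (hd : ∀ α ∈ T, ∑ j, α j = d) (hsupp : ∀ α ∈ T, ∀ j, α j ≠ 0 → x j ≠ 0)
    (hPx : ∀ j, x j ≠ 0 → f j / f j0 = algebraMap k E (x j / x j0) ∨
      0 < P.ord (f j / f j0 - algebraMap k E (x j / x j0)))
    (h0 : ∑ α ∈ T, algebraMap k E (c α) * ∏ j, f j ^ α j = 0) :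
    ∑ α ∈ T, c α * ∏ j, x j ^ α j = 0 := by
  classical
  -- regular functions and their residues
  have hmapk : ∀ a : k, algebraMap k E a = algebraMap Ω E (algebraMap k Ω a) := fun a =>
    IsScalarTower.algebraMap_apply k Ω E a
  have hreg : ∀ j, x j ≠ 0 → P.Reg (f j / f j0) ∧
      P.red (f j / f j0) = P.red (algebraMap k E (x j / x j0)) := by
    intro j hj
    have h1 : P.Reg (algebraMap k E (x j / x j0)) := by rw [hmapk]; exact P.reg_const _
    rcases hPx j hj with h | h
    · rw [h]; exact ⟨h1, rfl⟩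
    · have h2 : P.Reg (f j / f j0 - algebraMap k E (x j / x j0)) := Or.inr h.le
      have h3 : f j / f j0 = (f j / f j0 - algebraMap k E (x j / x j0)) +
          algebraMap k E (x j / x j0) := by ring
      have h4 : P.red (f j / f j0 - algebraMap k E (x j / x j0)) = 0 :=
        (P.red_eq_zero_iff h2).2 (Or.inr h)
      constructor
      · rw [h3]; exact P.reg_add h2 h1
      · rw [h3, P.red_add h2 h1, h4, zero_add]
  have hregprod : ∀ α ∈ T, P.Reg (∏ j, (f j / f j0) ^ α j) ∧
      P.red (∏ j, (f j / f j0) ^ α j) = P.red (algebraMap k E (∏ j, (x j / x j0) ^ α j)) := by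
    intro α hα
    rw [map_prod]
    simp only [map_pow]
    have key : ∀ s : Finset (Fin (n + 1)), P.Reg (∏ j ∈ s, (f j / f j0) ^ α j) ∧
        P.Reg (∏ j ∈ s, (algebraMap k E (x j / x j0)) ^ α j) ∧
        P.red (∏ j ∈ s, (f j / f j0) ^ α j) =
          P.red (∏ j ∈ s, (algebraMap k E (x j / x j0)) ^ α j) := by
      intro s
      induction s using Finset.induction_on with
      | empty => simp [P.reg_one]
      | insert i s hi ih =>
        rw [Finset.prod_insert hi, Finset.prod_insert hi]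
        have h5 : P.Reg ((f i / f j0) ^ α i) ∧ P.Reg ((algebraMap k E (x i / x j0)) ^ α i) ∧
            P.red ((f i / f j0) ^ α i) = P.red ((algebraMap k E (x i / x j0)) ^ α i) := by
          by_cases h0 : α i = 0
          · rw [h0]; simp [P.reg_one]
          · have h6 := hreg i (hsupp α hα i h0)
            have h7 : P.Reg (algebraMap k E (x i / x j0)) := by rw [hmapk]; exact P.reg_const _
            have hp : ∀ {g : E}, P.Reg g → ∀ m : ℕ, P.Reg (g ^ m) := by
              intro g hg m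
              induction m with
              | zero => simp [P.reg_one]
              | succ m ih => rw [pow_succ]; exact P.reg_mul ih hg
            exact ⟨hp h6.1 _, hp h7 _, by rw [P.red_pow h6.1, P.red_pow h7, h6.2]⟩
        refine ⟨P.reg_mul h5.1 ih.1, P.reg_mul h5.2.1 ih.2.1, ?_⟩
        rw [P.red_mul h5.1 ih.1, P.red_mul h5.2.1 ih.2.1, h5.2.2, ih.2.2]
    have h8 := key Finset.univ
    exact ⟨h8.1, h8.2.2⟩
  -- dehomogenise
  have h1 : ∑ α ∈ T, algebraMap k E (c α) * ∏ j, (f j / f j0) ^ α j = 0 := by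
    have h2 : ∀ α ∈ T, algebraMap k E (c α) * ∏ j, (f j / f j0) ^ α j =
        (f j0 ^ d)⁻¹ * (algebraMap k E (c α) * ∏ j, f j ^ α j) := by
      intro α hα
      have h3 : ∏ j, (f j / f j0) ^ α j = (∏ j, f j ^ α j) * (f j0 ^ d)⁻¹ := by
        simp only [div_pow, Finset.prod_div_distrib]
        rw [Finset.prod_pow_eq_pow_sum, hd α hα, div_eq_mul_inv]
      rw [h3]; ring
    rw [Finset.sum_congr rfl h2, ← Finset.mul_sum, h0, mul_zero]
  have hregsum : ∀ S : Finset (Fin (n + 1) →₀ ℕ), S ⊆ T →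
      P.Reg (∑ α ∈ S, algebraMap k E (c α) * ∏ j, (f j / f j0) ^ α j) ∧
      P.Reg (∑ α ∈ S, algebraMap k E (c α * ∏ j, (x j / x j0) ^ α j)) ∧
      P.red (∑ α ∈ S, algebraMap k E (c α) * ∏ j, (f j / f j0) ^ α j) =
        P.red (∑ α ∈ S, algebraMap k E (c α * ∏ j, (x j / x j0) ^ α j)) := by
    intro S
    induction S using Finset.induction_on with
    | empty => intro _; simp [P.reg_zero]
    | insert α S hα ih =>
      intro hS
      have ih' := ih fun β hβ => hS (Finset.mem_insert_of_mem hβ)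
      have h2 := hregprod α (hS (Finset.mem_insert_self _ _))
      have h3 : P.Reg (algebraMap k E (c α)) := by rw [hmapk]; exact P.reg_const _
      have h4 : P.Reg (algebraMap k E (∏ j, (x j / x j0) ^ α j)) := by
        rw [hmapk]; exact P.reg_const _
      rw [Finset.sum_insert hα, Finset.sum_insert hα, map_mul]
      refine ⟨P.reg_add (P.reg_mul h3 h2.1) ih'.1, P.reg_add (P.reg_mul h3 h4) ih'.2.1, ?_⟩
      rw [P.red_add (P.reg_mul h3 h2.1) ih'.1, P.red_add (P.reg_mul h3 h4) ih'.2.1,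
        P.red_mul h3 h2.1, P.red_mul h3 h4, h2.2, ih'.2.2]
  have h5 := (hregsum T subset_rfl).2.2
  rw [h1, P.red_zero, ← map_sum] at h5
  have h6 : P.Reg (algebraMap k E (∑ α ∈ T, c α * ∏ j, (x j / x j0) ^ α j)) := by
    rw [hmapk]; exact P.reg_const _
  have h7 : ∑ α ∈ T, c α * ∏ j, (x j / x j0) ^ α j = 0 := by
    by_contra hne
    rcases (P.red_eq_zero_iff h6).1 h5.symm with h | h
    · exact hne ((map_eq_zero _).1 h)
    · rw [hmapk, P.ord_const ((map_ne_zero _).2 hne)] at h
      exact lt_irrefl _ h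
  have h8 : ∀ α ∈ T, c α * ∏ j, x j ^ α j = x j0 ^ d * (c α * ∏ j, (x j / x j0) ^ α j) := by
    intro α hα
    have h3 : ∏ j, (x j / x j0) ^ α j = (∏ j, x j ^ α j) * (x j0 ^ d)⁻¹ := by
      simp only [div_pow, Finset.prod_div_distrib]
      rw [Finset.prod_pow_eq_pow_sum, hd α hα, div_eq_mul_inv]
    rw [h3]
    have : x j0 ^ d ≠ 0 := pow_ne_zero _ hj0
    field_simp
  rw [Finset.sum_congr rfl h8, ← Finset.mul_sum, h7, mul_zero]

end Pool.Agent.W602.RG
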