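import Pool.Agent.W602.RG.Abs

/-! A nonconstant family of pointed maps gives a one-parameter group. -/

set_option autoImplicit false

open FF MvPolynomial Pool.Agent.W603.LV Pool.Agent.W603.PV

namespace Pool.Agent.W602.RG

variable {k L Ω E : Type} [Field k] [Field L] [Field Ω] [Field E] [Algebra k L]
    [Algebra k Ω] [Algebra k E] [Algebra L E] [Algebra Ω E]

theorem Rel.refl' (D : Derivation L E E) (x : E) : Rel Ω D x x :=
  ⟨1, 1, one_ne_zero, one_ne_zero, D.map_one_eq_zero, by simp⟩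

theorem D_inv_zero (D : Derivation L E E) {e : E} (he : e ≠ 0) (h : D e = 0) : D e⁻¹ = 0 := by
  have h1 : D (e * e⁻¹) = 0 := by rw [mul_inv_cancel₀ he, D.map_one_eq_zero]
  rw [D.leibniz, h] at h1
  simp only [smul_eq_mul, mul_zero, add_zero] at h1
  exact (mul_eq_zero.1 h1).resolve_left he

theorem Rel.symm' {D : Derivation L E E} {x y : E} (h : Rel Ω D x y) : Rel Ω D y x := by
  obtain ⟨ω, e, hω, he, hD, hx⟩ := h
  refine ⟨ω⁻¹, e⁻¹, inv_ne_zero hω, inv_ne_zero he, D_inv_zero D he hD, ?_⟩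
  have h1 : algebraMap Ω E ω ≠ 0 := (map_ne_zero _).2 hω
  rw [hx, map_inv₀]
  field_simp

theorem Rel.trans' {D : Derivation L E E} {x y z : E} (h : Rel Ω D x y) (h' : Rel Ω D y z) :
    Rel Ω D x z := by
  obtain ⟨ω, e, hω, he, hD, hx⟩ := h
  obtain ⟨ω', e', hω', he', hD', hy⟩ := h'
  refine ⟨ω * ω', e * e', mul_ne_zero hω hω', mul_ne_zero he he', ?_, ?_⟩
  · rw [D.leibniz, hD, hD']; simp
  · rw [hx, hy, map_mul]; ring

/-- sums over unions of classes vanish -/
theorem sum_classes {α : Type} (D : Derivation L E E) (J : Finset α) (M c : α → E)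
    (h : ∀ (j0 : α) (T : Finset α), j0 ∈ J → (∀ i, i ∈ T ↔ i ∈ J ∧ Rel Ω D (M i) (M j0)) →
      ∑ i ∈ T, c i * M i = 0) (T : Finset α) (hT : T ⊆ J)
    (hcl : ∀ i ∈ J, ∀ j ∈ T, Rel Ω D (M i) (M j) → i ∈ T) : ∑ i ∈ T, c i * M i = 0 := by
  classical
  let cl : α → Finset α := fun a => J.filter fun i => Rel Ω D (M i) (M a)
  rw [← Finset.sum_fiberwise_of_maps_to (s := T) (t := T.image cl) (g := cl)
    (fun a ha => Finset.mem_image_of_mem _ ha)]
  apply Finset.sum_eq_zero
  intro C hC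
  obtain ⟨a, ha, rfl⟩ := Finset.mem_image.1 hC
  have h1 : T.filter (fun i => cl i = cl a) = cl a := by
    ext i
    simp only [cl, Finset.mem_filter]
    constructor
    · rintro ⟨hi, he⟩
      have h2 : i ∈ J.filter fun j => Rel Ω D (M j) (M i) :=
        Finset.mem_filter.2 ⟨hT hi, Rel.refl' D _⟩
      rw [he] at h2
      exact Finset.mem_filter.1 h2
    · rintro ⟨hi, he⟩
      refine ⟨hcl i hi a ha he, ?_⟩
      ext j
      simp only [Finset.mem_filter]
      constructor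
      · rintro ⟨h2, h3⟩; exact ⟨h2, h3.trans' he⟩
      · rintro ⟨h2, h3⟩; exact ⟨h2, h3.trans' he.symm'⟩
  rw [h1]
  exact h a (cl a) (hT ha) fun i => by simp only [cl, Finset.mem_filter]

theorem aeval_sub' {n : ℕ} (f : Fin (n + 1) → E) (F : MvPolynomial (Fin (n + 1)) k) :
    aeval f F = ∑ α ∈ F.support, algebraMap k E (F.coeff α) * ∏ j, f j ^ α j := by
  rw [aeval_def, eval₂_eq']

theorem degree_eq {n : ℕ} {F : MvPolynomial (Fin (n + 1)) k} {d : ℕ} (hF : F.IsHomogeneous d)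
    {α : Fin (n + 1) →₀ ℕ} (hα : α ∈ F.support) : ∑ j, α j = d := by
  have h1 := hF (mem_support_iff.1 hα)
  rw [Finsupp.weight_apply, Finsupp.sum_fintype _ _ (by simp)] at h1
  simpa using h1

theorem abs_main (hISF : S_ISF) (hEXT : S_EXT) (hDER : S_DER) (hRGC : S_RGC) (hRGM : S_RGM)
    (hCLS : S_CLS) (hQLF : S_QLF) [IsAlgClosed k] [CharZero k] [IsFF k L] [IsAlgClosed Ω]
    [CharZero Ω] (hBC : BC k L Ω E) {n : ℕ} {ι : Type} (U : Set (Fin (n + 1)))
    (F : ι → MvPolynomial (Fin (n + 1)) k) (hF : ∀ i, ∃ d, (F i).IsHomogeneous d)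
    (hC : ∀ i, ∃ N : ℕ, 0 < N ∧ ((F i).support.card - 1) ^ 2 ≤ N ∧
      ∀ α ∈ (F i).support, ∀ j, j ∉ U → N ∣ α j)
    (x : Fin (n + 1) → k) (f : Fin (n + 1) → E) (hsupp : ∀ j, f j = 0 ↔ x j = 0)
    (j0 : Fin (n + 1)) (hj0 : x j0 ≠ 0) (hf : ∀ i, aeval f (F i) = 0)
    (hU : ∀ j ∈ U, ∃ l : L, f j = algebraMap L E l) (P : Place Ω E)
    (hP : ∃ l : L, P.ord (algebraMap L E l) ≠ 0)
    (hPx : ∀ i j, x i ≠ 0 → x j ≠ 0 → f i / f j = algebraMap k E (x i / x j) ∨
      0 < P.ord (f i / f j - algebraMap k E (x i / x j)))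
    (P1 : Place Ω E) (hP1 : ∃ l : L, P1.ord (algebraMap L E l) ≠ 0) (i1 j1 : Fin (n + 1))
    (hi1 : f i1 ≠ 0) (hj1 : f j1 ≠ 0) (θ : Ω) (hθ : Transcendental k θ)
    (hPθ : f i1 / f j1 = algebraMap Ω E θ ∨ 0 < P1.ord (f i1 / f j1 - algebraMap Ω E θ)) :
    Conc F x := by
  classical
  have hkL : IsScalarTower k L E := hBC.towerL
  have hkΩ : IsScalarTower k Ω E := hBC.towerO
  have hcL : CharZero L := charZero_of_injective_algebraMap (algebraMap k L).injective
  have hcE : CharZero E := charZero_of_injective_algebraMap (algebraMap k E).injective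
  have hFF : IsFF Ω E := hISF k L Ω E hBC
  obtain ⟨D0, hD0⟩ := hDER k Ω θ hθ
  obtain ⟨D, hD⟩ := hEXT k L Ω E hBC D0
  have hregC : ∀ P : Place Ω E, (∃ l : L, P.ord (algebraMap L E l) ≠ 0) → Reg0 D P :=
    hRGC k L Ω E hBC D D0 hD
  have hreg : ∀ P : Place Ω E, Reg0 D P ∨ Mov D P := by
    intro P
    by_cases h : ∃ l : L, P.ord (algebraMap L E l) ≠ 0
    · exact Or.inl (hregC P h)
    · push Not at h
      exact hRGM k L Ω E hBC D D0 hD P h
  have hDk : ∀ a : k, D (algebraMap k E a) = 0 := by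
    intro a
    rw [IsScalarTower.algebraMap_apply k L E, D.map_algebraMap]
  -- monomials
  let M : (Fin (n + 1) →₀ ℕ) → E := fun α => ∏ j, f j ^ α j
  let J : ι → Finset (Fin (n + 1) →₀ ℕ) := fun i =>
    (F i).support.filter fun α => ∀ j, α j ≠ 0 → x j ≠ 0
  have hJ : ∀ i α, α ∈ J i ↔ α ∈ (F i).support ∧ ∀ j, α j ≠ 0 → x j ≠ 0 := fun i α => by
    simp only [J, Finset.mem_filter]
  have hfx : ∀ j, x j ≠ 0 → f j ≠ 0 := fun j hj h => hj ((hsupp j).1 h)
  have hM0 : ∀ i, ∀ α ∈ J i, M α ≠ 0 := by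
    intro i α hα
    refine Finset.prod_ne_zero_iff.2 fun j _ => ?_
    by_cases h0 : α j = 0
    · rw [h0, pow_zero]; exact one_ne_zero
    · exact pow_ne_zero _ (hfx j (((hJ i α).1 hα).2 j h0))
  have hsum : ∀ i, ∑ α ∈ J i, algebraMap k E ((F i).coeff α) * M α = 0 := by
    intro i
    have h1 := hf i
    rw [aeval_sub', ← Finset.sum_filter_add_sum_filter_not (F i).support
      (fun α => ∀ j, α j ≠ 0 → x j ≠ 0)] at h1
    have h2 : ∑ α ∈ (F i).support.filter (fun α => ¬ ∀ j, α j ≠ 0 → x j ≠ 0),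
        algebraMap k E ((F i).coeff α) * ∏ j, f j ^ α j = 0 := by
      apply Finset.sum_eq_zero
      intro α hα
      have h3 := (Finset.mem_filter.1 hα).2
      push Not at h3
      obtain ⟨j, hj, hxj⟩ := h3
      rw [Finset.prod_eq_zero (Finset.mem_univ j), mul_zero]
      rw [(hsupp j).2 hxj, zero_pow hj]
    rw [h2, add_zero] at h1
    exact h1
  -- orders at moving places
  have hdiv : ∀ i, ∃ N : ℕ, 0 < N ∧ ((J i).card - 1) ^ 2 ≤ N ∧ ∀ P : Place Ω E, Mov D P →
      ∀ α ∈ J i, ∀ β ∈ J i, (N : ℤ) ∣ P.ord (M α) - P.ord (M β) := by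
    intro i
    obtain ⟨N, hN0, hN, hNd⟩ := hC i
    refine ⟨N, hN0, ?_, fun P hPm => ?_⟩
    · have h1 : (J i).card ≤ (F i).support.card := Finset.card_filter_le _ _
      exact (Nat.pow_le_pow_left (by omega) 2).trans hN
    · have h2 : ∀ α ∈ J i, (N : ℤ) ∣ P.ord (M α) := by
        intro α hα
        change (N : ℤ) ∣ P.ord (∏ j, f j ^ α j)
        rw [ord_prod P _ _ _ (fun j _ h => hfx j (((hJ i α).1 hα).2 j h))]
        apply Finset.dvd_sum
        intro j _
        by_cases hjU : j ∈ U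
        · obtain ⟨l, hl⟩ := hU j hjU
          rw [hl, hPm.2.2 _ (D.map_algebraMap l), mul_zero]
          exact dvd_zero _
        · obtain ⟨t, ht⟩ := hNd α ((hJ i α).1 hα).1 j hjU
          exact ⟨t * P.ord (f j), by rw [ht]; push_cast; ring⟩
      intro α hα β hβ
      exact dvd_sub (h2 α hα) (h2 β hβ)
  -- class sums
  have hclass : ∀ i (α0 : Fin (n + 1) →₀ ℕ) (T : Finset (Fin (n + 1) →₀ ℕ)), α0 ∈ J i →
      (∀ α, α ∈ T ↔ α ∈ J i ∧ Rel Ω D (M α) (M α0)) →
      ∑ α ∈ T, algebraMap k E ((F i).coeff α) * M α = 0 := by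
    intro i α0 T h0 hT
    obtain ⟨N, hN0, hN, hNd⟩ := hdiv i
    exact hCLS L Ω E (Fin (n + 1) →₀ ℕ) D hreg (J i) N hN0 hN M
      (fun α => algebraMap k E ((F i).coeff α)) (hM0 i) (fun α _ => hDk _) (hsum i)
      hNd α0 T h0 hT
  -- the differences
  let Q : Set (Fin (n + 1) → ℤ) := {q | ∃ i, ∃ α ∈ J i, ∃ β ∈ J i, Rel Ω D (M α) (M β) ∧
    ∀ j, q j = (α j : ℤ) - β j}
  refine ⟨Q, ?_, ?_, ?_⟩
  · rintro q ⟨i, α, hα, β, hβ, -, hq⟩
    exact ⟨i, α, ((hJ i α).1 hα).1, β, ((hJ i β).1 hβ).1, hq⟩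
  · -- the weights
    let W : Submodule ℚ E := (Submodule.span ℚ (Set.range (algebraMap Ω E)))
    have hW : ∀ e : E, e ∈ W ↔ ∃ ω : Ω, algebraMap Ω E ω = e := by
      intro e
      constructor
      · intro he
        induction he using Submodule.span_induction with
        | mem y hy => exact hy
        | zero => exact ⟨0, map_zero _⟩
        | add a b _ _ ha hb =>
          obtain ⟨a', rfl⟩ := ha
          obtain ⟨b', rfl⟩ := hb
          exact ⟨a' + b', map_add _ _ _⟩
        | smul r a _ ha =>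
          obtain ⟨a', rfl⟩ := ha
          refine ⟨(r : Ω) * a', ?_⟩
          rw [map_mul, map_ratCast, Rat.smul_def]
      · rintro ⟨ω, rfl⟩
        exact Submodule.subset_span ⟨ω, rfl⟩
    let a : Fin (n + 1) → E ⧸ W := fun j => W.mkQ (ld D (f j))
    have hQ : ∀ q ∈ Q, ∑ j, q j • a j = 0 := by
      rintro q ⟨i, α, hα, β, hβ, ⟨ω, e, hω, he, hDe, hM⟩, hq⟩
      have h1 : ∑ j, q j • a j = W.mkQ (∑ j, (q j : E) * ld D (f j)) := by
        rw [map_sum]
        refine Finset.sum_congr rfl fun j _ => ?_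
        change q j • W.mkQ (ld D (f j)) = _
        rw [← map_zsmul, zsmul_eq_mul]
      rw [h1, Submodule.mkQ_apply, Submodule.Quotient.mk_eq_zero, hW]
      refine ⟨D0 ω / ω, ?_⟩
      have hωE : algebraMap Ω E ω ≠ 0 := (map_ne_zero _).2 hω
      have h2 : ld D (M α) = ld D (algebraMap Ω E ω) + ld D e + ld D (M β) := by
        rw [hM, ld_mul D (mul_ne_zero hωE he) (hM0 i β hβ), ld_mul D hωE he]
      have h3 : ld D (M α) = ∑ j, (α j : E) * ld D (f j) :=
        ld_prod D _ _ _ fun j _ h => hfx j (((hJ i α).1 hα).2 j h)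
      have h4 : ld D (M β) = ∑ j, (β j : E) * ld D (f j) :=
        ld_prod D _ _ _ fun j _ h => hfx j (((hJ i β).1 hβ).2 j h)
      have h5 : ∑ j, (q j : E) * ld D (f j) = ld D (M α) - ld D (M β) := by
        rw [h3, h4, ← Finset.sum_sub_distrib]
        refine Finset.sum_congr rfl fun j _ => ?_
        rw [hq j]; push_cast; ring
      have h6 : ld D e = 0 := by unfold ld; rw [hDe, zero_div]
      rw [h5, h2, h6, map_div₀]
      unfold ld
      rw [hD]
      ring
    by_cases hcase : ∀ i j, x i ≠ 0 → x j ≠ 0 → a i = a j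
    · exfalso
      -- all ratios are constants of `D`
      have hconst : ∀ i j, x i ≠ 0 → x j ≠ 0 → D (f i / f j) = 0 := by
        intro i j hi hj
        by_contra hne
        have hfi := hfx i hi
        have hfj := hfx j hj
        have h1 : W.mkQ (ld D (f i) - ld D (f j)) = 0 := by
          rw [map_sub, sub_eq_zero]; exact hcase i j hi hj
        rw [Submodule.mkQ_apply, Submodule.Quotient.mk_eq_zero, hW] at h1
        obtain ⟨κ, hκ⟩ := h1
        have hρ0 : f i / f j ≠ 0 := div_ne_zero hfi hfj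
        have h2 : ld D (f i) = ld D (f i / f j) + ld D (f j) := by
          rw [← ld_mul D hρ0 hfj, div_mul_cancel₀ _ hfj]
        have h3 : D (f i / f j) = algebraMap Ω E κ * (f i / f j) := by
          rw [hκ, h2]
          unfold ld
          field_simp
          ring
        have h4 := ord_ratio_zero P (div_ne_zero hi hj) hkΩ (hPx i j hi hj)
        have hκ0 : κ ≠ 0 := by
          rintro rfl
          rw [map_zero, zero_mul] at h3
          exact hne h3
        have h5 : P.ord (D (f i / f j)) = 0 := by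
          rw [h3, P.ord_mul ((map_ne_zero _).2 hκ0) hρ0, P.ord_const hκ0, h4.2, add_zero]
        have h6 : D (f i / f j - algebraMap k E (x i / x j)) = D (f i / f j) := by
          rw [map_sub, hDk, sub_zero]
        rcases hPx i j hi hj with h | h
        · apply hne; rw [h, hDk]
        · have h7 := hregC P hP (f i / f j - algebraMap k E (x i / x j)) (by rw [h6]; exact hne)
          rw [h6, h5] at h7
          omega
      have hx1 : x i1 ≠ 0 := fun h => hi1 ((hsupp i1).2 h)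
      have hx2 : x j1 ≠ 0 := fun h => hj1 ((hsupp j1).2 h)
      have h1 := hconst i1 j1 hx1 hx2
      rcases hPθ with h | h
      · rw [h, hD] at h1
        exact hD0 (by simpa using h1)
      · have h2 : D (f i1 / f j1 - algebraMap Ω E θ) = - algebraMap Ω E (D0 θ) := by
          rw [map_sub, h1, hD, zero_sub]
        have h3 : algebraMap Ω E (D0 θ) ≠ 0 := (map_ne_zero _).2 hD0
        have h4 := hregC P1 hP1 (f i1 / f j1 - algebraMap Ω E θ) (by rw [h2]; exact neg_ne_zero.2 h3)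
        rw [h2, P1.ord_neg, P1.ord_const hD0] at h4
        omega
    · push Not at hcase
      obtain ⟨i, j, hi, hj, hne⟩ := hcase
      obtain ⟨b, hb, hbQ⟩ := hQLF (E ⧸ W) (n + 1) a Q hQ i j hne
      exact ⟨b, hbQ, i, j, hi, hj, hb⟩
  · -- the equations for the weighted pieces
    intro b hb i v
    let T : Finset (Fin (n + 1) →₀ ℕ) := (J i).filter fun α => ∑ j, (α j : ℤ) * b j = v
    have hTJ : T ⊆ J i := Finset.filter_subset _ _
    have h1 : ∑ α ∈ T, algebraMap k E ((F i).coeff α) * M α = 0 := by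
      refine sum_classes (Ω := Ω) D (J i) M (fun α => algebraMap k E ((F i).coeff α))
        (hclass i) T hTJ ?_
      intro α hα β hβ hrel
      refine Finset.mem_filter.2 ⟨hα, ?_⟩
      have h2 := hb (fun j => (α j : ℤ) - β j) ⟨i, α, hα, β, hTJ hβ, hrel, fun j => rfl⟩
      have h3 := (Finset.mem_filter.1 hβ).2
      rw [← h3]
      have h4 : ∑ l, ((α l : ℤ) - β l) * b l = ∑ l, (α l : ℤ) * b l - ∑ l, (β l : ℤ) * b l := by
        rw [← Finset.sum_sub_distrib]
        exact Finset.sum_congr rfl fun l _ => by ring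
      rw [h4] at h2
      omega
    obtain ⟨d, hd⟩ := hF i
    have h5 := reduce (Ω := Ω) hkΩ P x f j0 hj0 (hfx j0 hj0) T (fun α => (F i).coeff α) d
      (fun α hα => degree_eq hd ((hJ i α).1 (hTJ hα)).1)
      (fun α hα => ((hJ i α).1 (hTJ hα)).2) (fun j hj => hPx j j0 hj hj0) h1
    rw [← h5]
    symm
    apply Finset.sum_subset
    · intro α hα
      have h6 := Finset.mem_filter.1 hα
      exact Finset.mem_filter.2 ⟨((hJ i α).1 h6.1).1, h6.2⟩
    · intro α hα hαT
      have h6 := Finset.mem_filter.1 hα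
      have h7 : ¬ ∀ j, α j ≠ 0 → x j ≠ 0 := fun h =>
        hαT (Finset.mem_filter.2 ⟨(hJ i α).2 ⟨h6.1, h⟩, h6.2⟩)
      push Not at h7
      obtain ⟨j, hj, hxj⟩ := h7
      rw [Finset.prod_eq_zero (Finset.mem_univ j), mul_zero]
      rw [hxj, zero_pow hj]

end Pool.Agent.W602.RG
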