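import Pool.Agent.W603.PV.Ext

/-! Constant field extensions of function fields, derivations along the constants, and ultrapowers:
definitions. -/

set_option autoImplicit false

open FF MvPolynomial Pool.Agent.W603.LV Pool.Agent.W603.PV

namespace Pool.Agent.W602.RG

/-- `E` is the fraction field of `L ⊗ Ω` over `k`. -/
structure BC (k L Ω E : Type) [Field k] [Field L] [Field Ω] [Field E] [Algebra k L] [Algebra k Ω]
    [Algebra k E] [Algebra L E] [Algebra Ω E] : Prop where
  towerL : IsScalarTower k L E
  towerO : IsScalarTower k Ω E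
  ld : ∀ (m : ℕ) (v : Fin m → L), LinearIndependent k v →
    LinearIndependent Ω (fun i => algebraMap L E (v i))
  gen : ∀ e : E, ∃ a ∈ Submodule.span Ω (Set.range (algebraMap L E)),
    ∃ b ∈ Submodule.span Ω (Set.range (algebraMap L E)), b ≠ 0 ∧ e = a / b

section places

variable {L Ω E : Type} [Field L] [Field Ω] [Field E] [Algebra L E] [Algebra Ω E]

/-- `D` does not lower orders at `P`. -/
def Reg0 (D : Derivation L E E) (P : Place Ω E) : Prop :=
  ∀ f, D f ≠ 0 → P.ord f ≤ P.ord (D f)

/-- `D` lowers orders at `P` by at most one, preserves regular functions, and its constants have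
order zero. -/
def Mov (D : Derivation L E E) (P : Place Ω E) : Prop :=
  (∀ f, D f ≠ 0 → P.ord f - 1 ≤ P.ord (D f)) ∧
    (∀ f, 0 ≤ P.ord f → D f ≠ 0 → 0 ≤ P.ord (D f)) ∧ ∀ a, D a = 0 → P.ord a = 0

/-- the ratio of `x` and `y` is the product of an element of `Ω` and a constant of `D` -/
def Rel (Ω : Type) {L E : Type} [Field L] [Field Ω] [Field E] [Algebra L E] [Algebra Ω E]
    (D : Derivation L E E) (x y : E) : Prop :=
  ∃ (ω : Ω) (e : E), ω ≠ 0 ∧ e ≠ 0 ∧ D e = 0 ∧ x = algebraMap Ω E ω * e * y

/-- the Wronskian -/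
noncomputable def Wr (D : Derivation L E E) {r : ℕ} (g : Fin r → E) : E :=
  Matrix.det (Matrix.of fun i j : Fin r => (⇑D)^[(i : ℕ)] (g j))

end places

/-- the ultrapower of `k` -/
def Om (k : Type) : Type := ((Filter.hyperfilter ℕ : Filter ℕ).Germ k)

noncomputable instance {k : Type} [Field k] : Field (Om k) :=
  inferInstanceAs (Field ((Filter.hyperfilter ℕ : Filter ℕ).Germ k))

/-- the element of the ultrapower given by a sequence -/
noncomputable def Om.mk {k : Type} (u : ℕ → k) : Om k := ((u : (Filter.hyperfilter ℕ : Filter ℕ).Germ k))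

section germ

variable {k : Type}

theorem Om.mk_surj (x : Om k) : ∃ u : ℕ → k, Om.mk u = x := by
  induction x using Filter.Germ.inductionOn with | _ x
  exact ⟨x, rfl⟩

theorem Om.mk_eq {u v : ℕ → k} :
    Om.mk u = Om.mk v ↔ ∀ᶠ n in (Filter.hyperfilter ℕ : Filter ℕ), u n = v n :=
  Filter.Germ.coe_eq

variable [Field k]

theorem Om.mk_zero : Om.mk (fun _ => 0 : ℕ → k) = 0 := rfl

theorem Om.mk_one : Om.mk (fun _ => 1 : ℕ → k) = 1 := rfl

theorem Om.mk_add (u v : ℕ → k) : Om.mk u + Om.mk v = Om.mk (fun n => u n + v n) := rfl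

theorem Om.mk_mul (u v : ℕ → k) : Om.mk u * Om.mk v = Om.mk (fun n => u n * v n) := rfl

variable (k) (L : Type) [Field L] [Algebra k L]

/-- the constants in the ultrapower -/
noncomputable def cst : L →+* Om L where
  toFun x := Om.mk fun _ => x
  map_one' := rfl
  map_mul' _ _ := rfl
  map_zero' := rfl
  map_add' _ _ := rfl

/-- the map of ultrapowers -/
noncomputable def mapOm : Om k →+* Om L where
  toFun := Filter.Germ.map (algebraMap k L)
  map_one' := by
    change Om.mk (fun _ => algebraMap k L 1) = Om.mk fun _ => 1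
    simp only [map_one]
  map_mul' x y := by
    obtain ⟨x, rfl⟩ := Om.mk_surj x
    obtain ⟨y, rfl⟩ := Om.mk_surj y
    change Om.mk (fun n => algebraMap k L (x n * y n)) =
      Om.mk fun n => algebraMap k L (x n) * algebraMap k L (y n)
    simp only [map_mul]
  map_zero' := by
    change Om.mk (fun _ => algebraMap k L 0) = Om.mk fun _ => 0
    simp only [map_zero]
  map_add' x y := by
    obtain ⟨x, rfl⟩ := Om.mk_surj x
    obtain ⟨y, rfl⟩ := Om.mk_surj y
    change Om.mk (fun n => algebraMap k L (x n + y n)) =
      Om.mk fun n => algebraMap k L (x n) + algebraMap k L (y n)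
    simp only [map_add]

theorem mapOm_mk (u : ℕ → k) : mapOm k L (Om.mk u) = Om.mk fun n => algebraMap k L (u n) := rfl

theorem cst_apply (x : L) : cst L x = Om.mk fun _ => x := rfl

/-- the subfield of the ultrapower of `L` generated by `L` and the ultrapower of `k` -/
noncomputable def EE : Subfield (Om L) :=
  Subfield.closure (Set.range (cst L) ∪ Set.range (mapOm k L))

theorem cst_mem (x : L) : cst L x ∈ EE k L :=
  Subfield.subset_closure (Or.inl ⟨x, rfl⟩)

theorem mapOm_mem (x : Om k) : mapOm k L x ∈ EE k L :=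
  Subfield.subset_closure (Or.inr ⟨x, rfl⟩)

noncomputable instance : Algebra k (Om k) := (cst k).toAlgebra

noncomputable instance : Algebra L (EE k L) :=
  ((cst L).codRestrict (EE k L).toSubring (cst_mem k L)).toAlgebra

noncomputable instance : Algebra (Om k) (EE k L) :=
  ((mapOm k L).codRestrict (EE k L).toSubring (mapOm_mem k L)).toAlgebra

noncomputable instance algebraK : Algebra k (EE k L) :=
  (((cst L).comp (algebraMap k L)).codRestrict (EE k L).toSubring
    (fun x => cst_mem k L (algebraMap k L x))).toAlgebra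

theorem coe_algebraMap_L (x : L) : ((algebraMap L (EE k L) x : EE k L) : Om L) = cst L x := rfl

theorem coe_algebraMap_Om (x : Om k) :
    ((algebraMap (Om k) (EE k L) x : EE k L) : Om L) = mapOm k L x := rfl

end germ

end Pool.Agent.W602.RG
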