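import Pool.Agent.W603.CX.Cond

/-! Pointed maps from curves to quasi-projective varieties: definitions. -/

set_option autoImplicit false

open FF MvPolynomial Pool.Agent.W603.LV Pool.Agent.W603.PV Pool.Agent.W603.CX
open scoped LinearAlgebra.Projectivization

namespace Pool.Agent.W602.RG

section defs

variable {k L : Type} [Field k] [Field L] [Algebra k L] {n : ℕ} {ι : Type}

/-- The map with homogeneous coordinates `f` (elements of the function field `L` of a curve) maps
the point `c` of the curve to the point with homogeneous coordinates `x`. -/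
def HasValue (c : Place k L) (x : Fin (n + 1) → k) (f : Fin (n + 1) → L) : Prop :=
  ∀ i j, algebraMap k L (x i) * f j - algebraMap k L (x j) * f i = 0 ∨
    pord c f < c.ord (algebraMap k L (x i) * f j - algebraMap k L (x j) * f i)

/-- The morphisms to the quasi-projective variety `X` (with the equations `F i = 0`, in the
complement of the hyperplanes `x_j = 0`, `j ∈ U`) from the smooth projective curve with function
field `L`, without the finite set `S` of its points, that map the point `c` to the point `x`. -/
def PointedCurves (U : Set (Fin (n + 1))) (F : ι → MvPolynomial (Fin (n + 1)) k)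
    (S : Finset (Place k L)) (c : Place k L) (x : Fin (n + 1) → k) :
    Set (ℙ L (Fin (n + 1) → L)) :=
  {φ | ∃ (f : Fin (n + 1) → L) (hf : f ≠ 0), IsMap U F S f ∧ HasValue c x f ∧
    φ = Projectivization.mk L f hf}

end defs

variable {k : Type} [Field k] {n : ℕ} {ι : Type}

/-- Outside a proper closed subset `G = 0` of `X`, for every pointed curve there are only finitely
many morphisms to `X` with a given value at the marked point. -/
def FewPointedCurves (U : Set (Fin (n + 1))) (F : ι → MvPolynomial (Fin (n + 1)) k) : Prop :=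
  ∃ G : MvPolynomial (Fin (n + 1)) k, (∃ d, G.IsHomogeneous d) ∧
    (∃ x ∈ Pool.Agent.W603.CX.Pts U F, eval x G ≠ 0) ∧
    ∀ (L : Type) [Field L] [Algebra k L] [IsFF k L] (S : Finset (Place k L)) (c : Place k L),
      c ∉ S → ∀ x ∈ Pool.Agent.W603.CX.Pts U F, eval x G ≠ 0 → (PointedCurves U F S c x).Finite

/-- CNV: a nontrivial one-parameter group gives infinitely many pointed maps. -/
def S_CNV : Prop := ∀ (k : Type) [Field k] [IsAlgClosed k] [CharZero k] (n : ℕ) (ι : Type)
    (U : Set (Fin (n + 1))) (F : ι → MvPolynomial (Fin (n + 1)) k),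
    Pool.Agent.W603.CX.Irred U F → ∀ b : Fin (n + 1) → ℤ,
    Pool.Agent.W603.CX.Preserves U F b → ¬ Pool.Agent.W603.CX.ActsTrivially U F b →
    ¬ FewPointedCurves U F

/-- ORB: an orbit of a one-parameter group through the point `x` gives infinitely many maps from
the pointed curve `(G_m, 1)` to `(X, x)`. -/
def S_ORB : Prop := ∀ (k : Type) [Field k] [IsAlgClosed k] [CharZero k] (n : ℕ) (ι : Type)
    (U : Set (Fin (n + 1))) (F : ι → MvPolynomial (Fin (n + 1)) k) (x : Fin (n + 1) → k)
    (b : Fin (n + 1) → ℤ),
    (∀ t : k, t ≠ 0 → (fun j => x j * t ^ b j) ∈ Pool.Agent.W603.CX.Pts U F) →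
    (∃ j l, x j ≠ 0 ∧ x l ≠ 0 ∧ b j ≠ b l) →
    ∃ (S : Finset (Place k (RatFunc k))) (c : Place k (RatFunc k)), c ∉ S ∧
      (PointedCurves U F S c x).Infinite

end Pool.Agent.W602.RG
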