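import Pool.Agent.W602.RG.Stm3
import Pool.Agent.W856.RG.ORB

/-! A line through `x` gives infinitely many pointed maps. -/

set_option autoImplicit false

open FF MvPolynomial Pool.Agent.W603.LV Pool.Agent.W603.PV
open Pool.Agent.W602.GT (lin val IsForm VarPts SubVar IsComponent GeneralType Cone tn)
open scoped LinearAlgebra.Projectivization

namespace Pool.Agent.W602.RG

theorem lnw_all : S_LNW := by
  classical
  intro k _ _ _ n K _ _ y x v hx0 ⟨j, j', hjj⟩ hline
  have hinf : Infinite k := inferInstance
  obtain ⟨T, hTd⟩ : ∃ T : RatFunc k, T = RatFunc.X := ⟨_, rfl⟩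
  have hTt : Transcendental k T := hTd ▸ RatFunc.transcendental_X
  have hT0 : T ≠ 0 := by rw [hTd]; exact RatFunc.X_ne_zero
  obtain ⟨c, hc⟩ := Pool.Agent.W856.RG.Orb.exists_zero (k := k) hTt
  set φ : k →+* RatFunc k := algebraMap k (RatFunc k) with hφ
  have hφi : Function.Injective φ := φ.injective
  have hpow : ∀ m : ℕ, 0 < c.ord (T ^ (m + 1)) := by
    intro m
    rw [c.ord_pow]
    push_cast
    nlinarith
  let g : ℕ → Fin (n + 1) → RatFunc k := fun m i => φ (x i) + T ^ (m + 1) * φ (v i)
  -- orders of the coordinates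
  have hreg : ∀ m i, φ (v i) = 0 ∨ 0 < c.ord (T ^ (m + 1) * φ (v i)) := by
    intro m i
    by_cases h : v i = 0
    · left; rw [h, map_zero]
    · right
      rw [c.ord_mul (pow_ne_zero _ hT0) (by rw [Ne, map_eq_zero]; exact h), c.ord_const h, add_zero]
      exact hpow m
  have hgx : ∀ m i, x i ≠ 0 → g m i ≠ 0 ∧ c.ord (g m i) = 0 := by
    intro m i hi
    have h1 : φ (x i) ≠ 0 := by rw [Ne, map_eq_zero]; exact hi
    change φ (x i) + T ^ (m + 1) * φ (v i) ≠ 0 ∧ c.ord (φ (x i) + T ^ (m + 1) * φ (v i)) = 0
    rcases hreg m i with h | h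
    · rw [h, mul_zero, add_zero]
      exact ⟨h1, c.ord_const hi⟩
    · have h2 : T ^ (m + 1) * φ (v i) ≠ 0 := by
        intro h0
        rw [h0, c.ord_zero] at h
        exact lt_irrefl _ h
      have h3 := c.ord_add_eq (f := φ (x i)) (g := T ^ (m + 1) * φ (v i)) h1 h2
        (by rw [c.ord_const hi]; exact h)
      exact ⟨h3.1, by rw [h3.2, c.ord_const hi]⟩
  obtain ⟨i0, hi0⟩ := Function.ne_iff.1 hx0
  have hg0 : ∀ m, g m ≠ 0 := fun m h => (hgx m i0 hi0).1 (congrFun h i0)
  refine ⟨c, ?_⟩
  apply Set.infinite_of_injective_forall_mem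
    (f := fun m : ℕ => Projectivization.mk (RatFunc k) (g m) (hg0 m))
  · intro m m' h
    rw [Projectivization.mk_eq_mk_iff'] at h
    obtain ⟨a, ha⟩ := h
    have h1 : a * g m' j = g m j := congrFun ha j
    have h2 : a * g m' j' = g m j' := congrFun ha j'
    have h3 : g m j * g m' j' = g m j' * g m' j := by
      rw [← h1, ← h2]; ring
    change (φ (x j) + T ^ (m + 1) * φ (v j)) * (φ (x j') + T ^ (m' + 1) * φ (v j')) =
      (φ (x j') + T ^ (m + 1) * φ (v j')) * (φ (x j) + T ^ (m' + 1) * φ (v j)) at h3
    have h4 : (φ (v j * x j' - v j' * x j)) * (T ^ (m + 1) - T ^ (m' + 1)) = 0 := by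
      rw [map_sub, map_mul, map_mul]
      linear_combination h3
    rcases mul_eq_zero.1 h4 with h5 | h5
    · exact absurd (sub_eq_zero.1 ((map_eq_zero _).1 h5)) hjj
    · rw [sub_eq_zero] at h5
      have h6 : c.ord (T ^ (m + 1)) = c.ord (T ^ (m' + 1)) := by rw [h5]
      rw [c.ord_pow, c.ord_pow] at h6
      push_cast at h6
      have h7 : ((m : ℤ) - m') * c.ord T = 0 := by linear_combination h6
      rcases mul_eq_zero.1 h7 with h8 | h8
      · omega
      · omega
  · intro m
    refine ⟨g m, hg0 m, ?_, ?_, rfl⟩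
    · intro H hH hyH
      -- the polynomial in one variable
      let P : Fin (n + 1) → Polynomial k := fun i => Polynomial.C (x i) +
        Polynomial.X ^ (m + 1) * Polynomial.C (v i)
      obtain ⟨Q, hQ1, hQ2⟩ := Pool.Agent.W602.GT.val_poly P H
      have hQ0 : Q = 0 := by
        apply Pool.Agent.W602.GT.poly_zero
        intro t _
        rw [hQ1]
        have h1 := hline (t ^ (m + 1)) H hH hyH
        have h3 : (fun i => (P i).eval t) = fun i => x i + t ^ (m + 1) * v i := by
          funext i
          simp only [P, Polynomial.eval_add, Polynomial.eval_mul, Polynomial.eval_C,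
            Polynomial.eval_X, Polynomial.eval_pow]
        rw [h3]
        exact h1
      have h2 : (fun i => algebraMap (Polynomial k) (RatFunc k) (P i)) = g m := by
        funext i
        have hC : ∀ a : k, algebraMap (Polynomial k) (RatFunc k) (Polynomial.C a) = φ a := by
          intro a
          rw [hφ, IsScalarTower.algebraMap_apply k (Polynomial k) (RatFunc k)]
          rfl
        change algebraMap (Polynomial k) (RatFunc k) (Polynomial.C (x i) +
          Polynomial.X ^ (m + 1) * Polynomial.C (v i)) = φ (x i) + T ^ (m + 1) * φ (v i)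
        rw [map_add, map_mul, map_pow, hC, hC, RatFunc.algebraMap_X, hTd]
      rw [← h2, ← hQ2, hQ0, map_zero]
    · intro i i'
      have h1 : algebraMap k (RatFunc k) (x i) * g m i' - algebraMap k (RatFunc k) (x i') * g m i =
          T ^ (m + 1) * φ (x i * v i' - x i' * v i) := by
        change φ (x i) * (φ (x i') + T ^ (m + 1) * φ (v i')) -
          φ (x i') * (φ (x i) + T ^ (m + 1) * φ (v i)) = _
        rw [map_sub, map_mul, map_mul]
        ring
      rw [h1]
      by_cases h2 : x i * v i' - x i' * v i = 0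
      · left; rw [h2, map_zero, mul_zero]
      · right
        have h3 := hgx m i0 hi0
        have h4 : pord c (g m) ≤ c.ord (g m i0) := pord_le c h3.1
        rw [c.ord_mul (pow_ne_zero _ hT0) (by rw [Ne, map_eq_zero]; exact h2), c.ord_const h2,
          add_zero]
        rw [h3.2] at h4
        exact lt_of_le_of_lt h4 (hpow m)

end Pool.Agent.W602.RG
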