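import Pool.Agent.W602.RG.Abs2
import Pool.Agent.W603.CX.Proj

/-! Infinitely many pointed maps of bounded degree give a one-parameter group. -/

set_option autoImplicit false

open FF MvPolynomial Pool.Agent.W603.LV Pool.Agent.W603.PV Pool.Agent.W603.CX

namespace Pool.Agent.W602.RG

theorem Om.mk_ne_zero {k : Type} [Field k] {u : ℕ → k} (h : ∀ m, u m ≠ 0) : Om.mk u ≠ 0 := by
  intro h0
  rw [← Om.mk_zero, Om.mk_eq] at h0
  obtain ⟨m, hm⟩ := h0.exists
  exact h m hm

theorem Om.mk_sub {k : Type} [Field k] (u v : ℕ → k) :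
    Om.mk u - Om.mk v = Om.mk (fun n => u n - v n) := rfl

theorem Om.mk_div {k : Type} [Field k] (u v : ℕ → k) :
    Om.mk u / Om.mk v = Om.mk (fun n => u n / v n) := rfl

section value

variable {k L : Type} [Field k] [Field L] [Algebra k L]

/-- the ratio of two functions with given values -/
theorem sm_ratio (c : Place k L) {a b : L} {α β : k} (hβ : β ≠ 0)
    (ha : a = algebraMap k L α ∨ 0 < c.ord (a - algebraMap k L α))
    (hb : b = algebraMap k L β ∨ 0 < c.ord (b - algebraMap k L β)) :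
    a / b - algebraMap k L (α / β) = 0 ∨ 0 < c.ord (a / b - algebraMap k L (α / β)) := by
  have hval : ∀ {a : L} {α : k}, (a = algebraMap k L α ∨ 0 < c.ord (a - algebraMap k L α)) →
      c.Reg a ∧ c.red a = c.red (algebraMap k L α) := by
    intro a α h
    rcases h with h | h
    · rw [h]; exact ⟨c.reg_const _, rfl⟩
    · have h2 : c.Reg (a - algebraMap k L α) := Or.inr h.le
      have h3 : a = (a - algebraMap k L α) + algebraMap k L α := by ring
      have h4 : c.red (a - algebraMap k L α) = 0 := (c.red_eq_zero_iff h2).2 (Or.inr h)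
      constructor
      · rw [h3]; exact c.reg_add h2 (c.reg_const _)
      · rw [h3, c.red_add h2 (c.reg_const _), h4, zero_add]
  obtain ⟨hra, hda⟩ := hval ha
  obtain ⟨hrb, hdb⟩ := hval hb
  have hβ' : algebraMap k L β ≠ 0 := (map_ne_zero _).2 hβ
  have hβr : c.red (algebraMap k L β) ≠ 0 := c.red_ne_zero hβ' (c.ord_const hβ)
  have hb0 : b ≠ 0 := by
    rintro rfl
    rw [c.red_zero] at hdb
    exact hβr hdb.symm
  have hbo : c.ord b = 0 := by
    by_contra hne
    have h1 : 0 < c.ord b := by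
      rcases hrb with h | h
      · exact absurd h hb0
      · omega
    rw [(c.red_eq_zero_iff hrb).2 (Or.inr h1)] at hdb
    exact hβr hdb.symm
  have hnum : a / b - algebraMap k L (α / β) =
      (a * algebraMap k L β - algebraMap k L α * b) / (b * algebraMap k L β) := by
    rw [map_div₀]
    field_simp
  have hN : c.Reg (a * algebraMap k L β - algebraMap k L α * b) := by
    rw [sub_eq_add_neg]
    exact c.reg_add (c.reg_mul hra (c.reg_const _)) (c.reg_neg (c.reg_mul (c.reg_const _) hrb))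
  have hN0 : c.red (a * algebraMap k L β - algebraMap k L α * b) = 0 := by
    rw [c.red_sub (c.reg_mul hra (c.reg_const _)) (c.reg_mul (c.reg_const _) hrb),
      c.red_mul hra (c.reg_const _), c.red_mul (c.reg_const _) hrb, hda, hdb]
    ring
  rcases (c.red_eq_zero_iff hN).1 hN0 with h | h
  · left; rw [hnum, h, zero_div]
  · by_cases h0 : a * algebraMap k L β - algebraMap k L α * b = 0
    · left; rw [hnum, h0, zero_div]
    · right
      rw [hnum, c.ord_div h0 (mul_ne_zero hb0 hβ'), c.ord_mul hb0 hβ', hbo, c.ord_const hβ]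
      simpa using h

theorem aeval_coe {n : ℕ} (g : ℕ → Fin (n + 1) → L) (fE : Fin (n + 1) → EE k L)
    (hg : ∀ j, (fE j : Om L) = Om.mk fun m => g m j) (G : MvPolynomial (Fin (n + 1)) k) :
    ((aeval fE G : EE k L) : Om L) = Om.mk fun m => aeval (g m) G := by
  induction G using MvPolynomial.induction_on with
  | C a =>
    rw [aeval_C]
    simp only [aeval_C]
    rfl
  | add p q hp hq =>
    simp only [map_add]
    rw [← Om.mk_add, ← hp, ← hq]
    rfl
  | mul_X p j hp =>
    simp only [map_mul, aeval_X]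
    rw [← Om.mk_mul, ← hp, ← hg j]
    rfl

end value

theorem rigid (hISF : S_ISF) (hEXT : S_EXT) (hDER : S_DER) (hRGC : S_RGC) (hRGM : S_RGM)
    (hCLS : S_CLS) (hQLF : S_QLF) (hGAC : S_GAC) (hGTR : S_GTR) (hGBC : S_GBC) (hGPL : S_GPL)
    (hGSP : S_GSP) (hRIE : S_RIE) (hUNI : S_UNI) (hSEQ : S_SEQ)
    {k L : Type} [Field k] [Field L] [Algebra k L] [IsAlgClosed k] [CharZero k] [IsFF k L]
    {n : ℕ} {ι : Type} (U : Set (Fin (n + 1))) (F : ι → MvPolynomial (Fin (n + 1)) k)
    (hF : ∀ i, ∃ d, (F i).IsHomogeneous d) (hC : ∀ i, PowerSparse U (F i))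
    (S : Finset (Place k L)) (c : Place k L) (hc : c ∉ S) (x : Fin (n + 1) → k)
    (hxU : ∀ j ∈ U, x j ≠ 0) (j0 : Fin (n + 1)) (hj0 : x j0 ≠ 0)
    (hj0U : (∃ j, j ∈ U) → j0 ∈ U) (B : ℤ) (M : Set (Fin (n + 1) → L)) (hinf : M.Infinite)
    (hM : ∀ f ∈ M, f j0 = 1 ∧ IsMap U F S f ∧ (∀ j, f j = 0 ↔ x j = 0) ∧
      (∀ j, x j ≠ 0 → f j = algebraMap k L (x j / x j0) ∨
        0 < c.ord (f j - algebraMap k L (x j / x j0))) ∧ pht k f ≤ B) : Conc F x := by
  classical
  -- the units take finitely many values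
  have hhgt : ∀ f ∈ M, ∀ j, hgt k (f j) ≤ B := by
    intro f hf j
    obtain ⟨h1, h2, h3, h4, h5⟩ := hM f hf
    by_cases h0 : f j = 0
    · have h6 : pht k f ≤ B := h5
      have h7 : hgt k (f j) = 0 := by
        rw [h0]
        have := hgt_algebraic (k := k) (K := L) (f := 0) isAlgebraic_zero
        exact this
      have h8 : 0 ≤ pht k f := by
        have h9 := hgt_le_pht (k := k) f (j := j0) (l := j0) (by rw [h1]; exact one_ne_zero)
          (by rw [h1]; exact one_ne_zero)
        exact (hgt_nonneg (k := k) _).trans h9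
      omega
    · have h6 := hgt_le_pht (k := k) f (j := j) (l := j0) h0 (by rw [h1]; exact one_ne_zero)
      rw [h1, div_one] at h6
      exact h6.trans h5
  have hunit : ∀ f ∈ M, ∀ j ∈ U, f j ∈ {u : L | u ≠ 0 ∧ (∀ P ∉ S, P.ord u = 0) ∧ hgt k u ≤ B ∧
      (u = algebraMap k L (x j / x j0) ∨ 0 < c.ord (u - algebraMap k L (x j / x j0)))} := by
    intro f hf j hj
    obtain ⟨h1, h2, h3, h4, h5⟩ := hM f hf
    refine ⟨(h2.2.2 j hj).1, fun P hP => ?_, hhgt f hf j, h4 j (hxU j hj)⟩
    rw [(h2.2.2 j hj).2 P hP, ← (h2.2.2 j0 (hj0U ⟨j, hj⟩)).2 P hP, h1, P.ord_one]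
  let R : (Fin (n + 1) → L) → Fin (n + 1) → L := fun f j => if j ∈ U then f j else 0
  have hRfin : (R '' M).Finite := by
    apply (Set.Finite.pi' (t := fun j : Fin (n + 1) => if j ∈ U then
      {u : L | u ≠ 0 ∧ (∀ P ∉ S, P.ord u = 0) ∧ hgt k u ≤ B ∧
        (u = algebraMap k L (x j / x j0) ∨ 0 < c.ord (u - algebraMap k L (x j / x j0)))}
      else {0}) (fun j => ?_)).subset
    · rintro _ ⟨f, hf, rfl⟩ j
      by_cases hj : j ∈ U
      · simp only [R, hj, if_true]; exact hunit f hf j hj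
      · simp only [R, hj, if_false]; exact Set.mem_singleton _
    · by_cases hj : j ∈ U
      · simp only [hj, if_true]
        exact hUNI k L S c B (x j / x j0) hc (div_ne_zero (hxU j hj) hj0)
      · simp only [hj, if_false]; exact Set.finite_singleton _
  obtain ⟨uu, huu⟩ : ∃ uu : Fin (n + 1) → L, (M ∩ R ⁻¹' {uu}).Infinite := by
    by_contra hcon
    push Not at hcon
    apply hinf
    exact Set.Finite.of_finite_fibers R hRfin fun v _ => hcon v
  obtain ⟨M', hM'⟩ : ∃ M' : Set (Fin (n + 1) → L), M' = M ∩ R ⁻¹' {uu} := ⟨_, rfl⟩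
  rw [← hM'] at huu
  -- a coordinate with infinitely many values
  obtain ⟨i1, hi1⟩ : ∃ i1, ((fun f : Fin (n + 1) → L => f i1) '' M').Infinite := by
    by_contra hcon
    push Not at hcon
    apply huu
    apply (Set.Finite.pi' (t := fun j : Fin (n + 1) => (fun f : Fin (n + 1) → L => f j) '' M')
      (fun j => hcon j)).subset
    intro f hf j
    exact ⟨f, hf, rfl⟩
  obtain ⟨p, u, θ, hu, hθ, hval⟩ := hSEQ k L B _ hi1 (by
    rintro _ ⟨f, hf, rfl⟩
    rw [hM'] at hf
    exact hhgt f hf.1 i1)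
  choose g hgM hgu using hu
  have hgM1 : ∀ m, g m ∈ M := fun m => by have := hgM m; rw [hM'] at this; exact this.1
  have hgU : ∀ m, ∀ j ∈ U, g m j = uu j := by
    intro m j hj
    have h1 := hgM m
    rw [hM'] at h1
    have h2 : R (g m) = uu := h1.2
    rw [← h2]
    simp only [R, hj, if_true]
  have hg1 : ∀ m, g m j0 = 1 := fun m => (hM _ (hgM1 m)).1
  have hg0 : ∀ m j, g m j = 0 ↔ x j = 0 := fun m => (hM _ (hgM1 m)).2.2.1
  -- homogeneous coordinates in a finite dimensional space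
  obtain ⟨V, hV, hVf⟩ := hRIE k L n B
  have hφ : ∀ m, ∃ φ : L, φ ≠ 0 ∧ ∀ j, φ * g m j ∈ V := fun m =>
    hVf (g m) ⟨j0, by rw [hg1]; exact one_ne_zero⟩ (hM _ (hgM1 m)).2.2.2.2
  choose φ hφ0 hφV using hφ
  have hφE : Om.mk φ ∈ EE k L := by
    apply hGSP k L V hV
    intro m
    have := hφV m j0
    rwa [hg1, mul_one] at this
  have hφne : Om.mk φ ≠ 0 := Om.mk_ne_zero hφ0
  have hgE : ∀ j, Om.mk (fun m => g m j) ∈ EE k L := by
    intro j
    have h1 : Om.mk (fun m => φ m * g m j) ∈ EE k L := hGSP k L V hV _ fun m => hφV m j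
    have h2 : Om.mk (fun m => g m j) = Om.mk (fun m => φ m * g m j) / Om.mk φ := by
      rw [← Om.mk_mul, mul_div_cancel_left₀ _ hφne]
    rw [h2]
    exact div_mem h1 hφE
  let fE : Fin (n + 1) → EE k L := fun j => ⟨Om.mk fun m => g m j, hgE j⟩
  have hfE : ∀ j, (fE j : Om L) = Om.mk fun m => g m j := fun j => rfl
  -- the fields
  have hBC : BC k L (Om k) (EE k L) := hGBC k L
  have hAC : IsAlgClosed (Om k) := hGAC k
  have hCZ : CharZero (Om k) :=
    charZero_of_injective_algebraMap (algebraMap k (Om k)).injective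
  have hne0 : ∀ j, x j ≠ 0 → fE j ≠ 0 := by
    intro j hj h
    have h1 : Om.mk (fun m => g m j) = 0 := by rw [← hfE j, h]; rfl
    exact Om.mk_ne_zero (fun m h => hj ((hg0 m j).1 h)) h1
  -- the places
  obtain ⟨P, hP, hPv⟩ := hGPL k L c
  obtain ⟨P1, hP1, hP1v⟩ := hGPL k L p
  have hx1 : x i1 ≠ 0 := by
    intro h
    have h1 : ∀ m, u m = 0 := fun m => by rw [← hgu m]; exact (hg0 m i1).2 h
    -- the values would be constant
    have h2 : ∀ m, θ m = 0 := by
      intro m
      rcases hval m with h3 | h3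
      · rw [h1] at h3
        exact ((map_eq_zero _).1 h3.symm)
      · rw [h1, zero_sub, p.ord_neg] at h3
        by_contra h4
        rw [p.ord_const h4] at h3
        exact lt_irrefl _ h3
    exact absurd (hθ (show θ 0 = θ 1 by rw [h2, h2])) (by norm_num)
  refine abs_main hISF hEXT hDER hRGC hRGM hCLS hQLF hBC U F hF hC x fE ?_ j0 hj0 ?_ ?_ P hP ?_
    P1 hP1 i1 j0 (hne0 i1 hx1) (hne0 j0 hj0) (Om.mk θ) (hGTR k θ hθ) ?_
  · intro j
    constructor
    · intro h
      by_contra h1
      exact hne0 j h1 h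
    · intro h
      apply Subtype.ext
      rw [hfE]
      change Om.mk (fun m => g m j) = Om.mk fun _ => 0
      congr 1
      funext m
      exact (hg0 m j).2 h
  · intro i
    apply Subtype.ext
    rw [aeval_coe g fE hfE]
    change _ = Om.mk fun _ => (0 : L)
    congr 1
    funext m
    exact (hM _ (hgM1 m)).2.1.2.1 i
  · intro j hj
    refine ⟨uu j, Subtype.ext ?_⟩
    rw [hfE, coe_algebraMap_L, cst_apply]
    congr 1
    funext m
    exact hgU m j hj
  · intro i j hi hj
    rw [← sub_eq_zero]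
    refine hPv _ (fun m => g m i / g m j - algebraMap k L (x i / x j)) ?_ fun m => ?_
    · change Om.mk (fun m => g m i) / Om.mk (fun m => g m j) -
        cst L (algebraMap k L (x i / x j)) = _
      rw [cst_apply, Om.mk_div, Om.mk_sub]
    · have h1 := (hM _ (hgM1 m)).2.2.2.1
      have h2 := sm_ratio c (div_ne_zero hj hj0) (h1 i hi) (h1 j hj)
      have h3 : x i / x j0 / (x j / x j0) = x i / x j := by field_simp
      rwa [h3] at h2
  · rw [← sub_eq_zero]
    refine hP1v _ (fun m => g m i1 / g m j0 - algebraMap k L (θ m)) ?_ fun m => ?_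
    · change Om.mk (fun m => g m i1) / Om.mk (fun m => g m j0) - mapOm k L (Om.mk θ) = _
      rw [mapOm_mk, Om.mk_div, Om.mk_sub]
    · change g m i1 / g m j0 - algebraMap k L (θ m) = 0 ∨
        0 < p.ord (g m i1 / g m j0 - algebraMap k L (θ m))
      have h4 : g m i1 = u m := hgu m
      rw [hg1, div_one, h4, sub_eq_zero]
      exact hval m

end Pool.Agent.W602.RG
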