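import Pool.Agent.W602.RG.Abs2
import Pool.Agent.W602.RG.Defs2
import Pool.Agent.W602.GT.KGen

/-! Pointed maps from curves to projective varieties given by sums of few high powers of linear
forms: definitions and statements of the parts. -/

set_option autoImplicit false

open FF MvPolynomial Pool.Agent.W603.LV Pool.Agent.W603.PV
open Pool.Agent.W602.GT (lin val IsForm VarPts SubVar IsComponent GeneralType Cone tn)
open scoped LinearAlgebra.Projectivization

namespace Pool.Agent.W602.RG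

section defs

variable {k : Type} [Field k] {n : ℕ} {ι : Type}

/-- the sum of the powers with exponent `d i` of the linear forms `l i t` -/
noncomputable def war (s d : ι → ℕ) (l : ∀ i, Fin (s i) → Fin (n + 1) → k) (i : ι) :
    MvPolynomial (Fin (n + 1)) k :=
  ∑ t, (∑ j, MvPolynomial.C (l i t j) * MvPolynomial.X j) ^ d i

/-- There is a line through `x` on which the linear forms in each class of an equivalence relation
remain proportional, and the sum of the powers of the linear forms in each class vanishes at `x`. -/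
def ConcW (s d : ι → ℕ) (l : ∀ i, Fin (s i) → Fin (n + 1) → k) (x : Fin (n + 1) → k) : Prop :=
  ∃ (R : ∀ i, Fin (s i) → Fin (s i) → Prop) (v : Fin (n + 1) → k), (∀ i, Equivalence (R i)) ∧
    (∃ j j', v j * x j' ≠ v j' * x j) ∧
    (∀ i t, lin (l i t) x = 0 → lin (l i t) v = 0) ∧
    (∀ i t t', R i t t' → lin (l i t) v * lin (l i t') x = lin (l i t') v * lin (l i t) x) ∧
    ∀ i t0 (A : Finset (Fin (s i))), (∀ t, t ∈ A ↔ R i t t0) → ∑ t ∈ A, lin (l i t) x ^ d i = 0

variable {K L : Type} [Field K] [Algebra k K] [Field L] [Algebra k L]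

/-- The morphisms to the projective variety with generic point `y` from the smooth projective curve
with function field `L` that map the point `c` to the point `x`. -/
def PointedMaps (y : Fin (n + 1) → K) (c : Place k L) (x : Fin (n + 1) → k) :
    Set (ℙ L (Fin (n + 1) → L)) :=
  {φ | ∃ (f : Fin (n + 1) → L) (hf : f ≠ 0), (∀ H : MvPolynomial (Fin (n + 1)) k, IsForm H →
    val y H = 0 → val f H = 0) ∧ HasValue c x f ∧ φ = Projectivization.mk L f hf}

end defs

/-- ABW: a nonconstant family of pointed maps gives a line. -/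
def S_ABW : Prop := ∀ (k L Ω E : Type) [Field k] [Field L] [Field Ω] [Field E] [Algebra k L]
    [Algebra k Ω] [Algebra k E] [Algebra L E] [Algebra Ω E] [IsAlgClosed k] [CharZero k]
    [IsFF k L] [IsAlgClosed Ω] [CharZero Ω], BC k L Ω E → ∀ (n : ℕ) (ι : Type) (s d : ι → ℕ)
    (l : ∀ i, Fin (s i) → Fin (n + 1) → k), (∀ i, 0 < d i) → (∀ i, (s i - 1) ^ 2 ≤ d i) →
    ∀ (x : Fin (n + 1) → k) (f : Fin (n + 1) → E),
    (∀ i t, lin (l i t) x = 0 → lin (l i t) f = 0) → ∀ j0, x j0 ≠ 0 → f j0 = 1 →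
    (∀ i, ∑ t, lin (l i t) f ^ d i = 0) → ∀ P : Place Ω E,
    (∃ l : L, P.ord (algebraMap L E l) ≠ 0) →
    (∀ j, f j = algebraMap k E (x j / x j0) ∨ 0 < P.ord (f j - algebraMap k E (x j / x j0))) →
    ∀ P1 : Place Ω E, (∃ l : L, P1.ord (algebraMap L E l) ≠ 0) → ∀ (i1 : Fin (n + 1)) (θ : Ω),
    Transcendental k θ → (f i1 = algebraMap Ω E θ ∨ 0 < P1.ord (f i1 - algebraMap Ω E θ)) →
    ConcW s d l x

/-- RGW: the rigidity theorem. -/
def S_RGW : Prop := ∀ (k L : Type) [Field k] [Field L] [Algebra k L] [IsAlgClosed k] [CharZero k]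
    [IsFF k L] (n : ℕ) (ι : Type) (s d : ι → ℕ) (l : ∀ i, Fin (s i) → Fin (n + 1) → k),
    (∀ i, 0 < d i) → (∀ i, (s i - 1) ^ 2 ≤ d i) → ∀ (c : Place k L) (x : Fin (n + 1) → k)
    (j0 : Fin (n + 1)), x j0 ≠ 0 → ∀ (B : ℤ) (M : Set (Fin (n + 1) → L)), M.Infinite →
    (∀ f ∈ M, f j0 = 1 ∧ (∀ i, ∑ t, lin (l i t) f ^ d i = 0) ∧
      (∀ i t, lin (l i t) x = 0 → lin (l i t) f = 0) ∧
      (∀ j, f j = algebraMap k L (x j / x j0) ∨ 0 < c.ord (f j - algebraMap k L (x j / x j0))) ∧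
      pht k f ≤ B) → ConcW s d l x

/-- HTW: the degrees of the pointed maps are bounded. -/
def S_HTW : Prop := ∀ (k L : Type) [Field k] [Field L] [Algebra k L] [IsAlgClosed k] [CharZero k]
    [IsFF k L] (n : ℕ) (ι : Type) [Finite ι] (s d : ι → ℕ)
    (l : ∀ i, Fin (s i) → Fin (n + 1) → k), (∀ i, 0 < d i) → (∀ i, (s i - 1) ^ 2 ≤ d i) →
    ∀ (c : Place k L) (x : Fin (n + 1) → k) (j0 : Fin (n + 1)), x j0 ≠ 0 → ¬ ConcW s d l x →
    ∃ B : ℤ, ∀ f : Fin (n + 1) → L, f j0 = 1 → (∀ i, ∑ t, lin (l i t) f ^ d i = 0) →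
      (∀ i t, lin (l i t) x = 0 → lin (l i t) f = 0) →
      (∀ j, f j = algebraMap k L (x j / x j0) ∨ 0 < c.ord (f j - algebraMap k L (x j / x j0))) →
      pht k f ≤ B

/-- GNW: outside a proper closed subset of a component of general type there are no such lines. -/
def S_GNW : Prop := ∀ (k : Type) [Field k] [IsAlgClosed k] [CharZero k] (n : ℕ) (ι : Type)
    [Finite ι] (s d : ι → ℕ) (l : ∀ i, Fin (s i) → Fin (n + 1) → k), (∀ i, 0 < d i) →
    ∀ (K : Type) [Field K] [Algebra k K] (w : ℕ) (y : Fin (n + 1) → K), 0 < w →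
    SubVar (war s d l) K w y → IsComponent (war s d l) y → GeneralType k K w →
    ∃ G : MvPolynomial (Fin (n + 1)) k, IsForm G ∧ val y G ≠ 0 ∧ ∀ x ∈ VarPts k y, val x G ≠ 0 →
      (∀ i t, lin (l i t) x = 0 → lin (l i t) y = 0) ∧ ¬ ConcW s d l x

/-- FNW: finitely many pointed maps. -/
def S_FNW : Prop := ∀ (k L : Type) [Field k] [Field L] [Algebra k L] [IsAlgClosed k] [CharZero k]
    [IsFF k L] (n : ℕ) (ι : Type) [Finite ι] (s d : ι → ℕ)
    (l : ∀ i, Fin (s i) → Fin (n + 1) → k), (∀ i, 0 < d i) → (∀ i, (s i - 1) ^ 2 ≤ d i) →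
    ∀ (K : Type) [Field K] [Algebra k K] (y : Fin (n + 1) → K), (∀ i, val y (war s d l i) = 0) →
    ∀ (c : Place k L), ∀ x ∈ VarPts k y, (∀ i t, lin (l i t) x = 0 → lin (l i t) y = 0) →
    ¬ ConcW s d l x → (PointedMaps y c x).Finite

/-- LNW: a line through `x` gives infinitely many pointed maps. -/
def S_LNW : Prop := ∀ (k : Type) [Field k] [IsAlgClosed k] [CharZero k] (n : ℕ)
    (K : Type) [Field K] [Algebra k K] (y : Fin (n + 1) → K) (x v : Fin (n + 1) → k), x ≠ 0 →
    (∃ j j', v j * x j' ≠ v j' * x j) →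
    (∀ a : k, ∀ H : MvPolynomial (Fin (n + 1)) k, IsForm H → val y H = 0 →
      val (fun j => x j + a * v j) H = 0) →
    ∃ c : Place k (RatFunc k), (PointedMaps y c x).Infinite

/-- CVW: a component which is not of general type is covered by lines. -/
def S_CVW : Prop := ∀ (k : Type) [Field k] [IsAlgClosed k] [CharZero k] (n : ℕ) (ι : Type)
    (F : ι → MvPolynomial (Fin (n + 1)) k) (s N : ℕ), (∀ e, Pool.Agent.W602.GT.IsPowSum s N (F e)) →
    1 ≤ N → n * ((s + 1) * tn (s - 1)) ≤ N → ∀ (K : Type) [Field K] [Algebra k K] (w : ℕ)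
    (y : Fin (n + 1) → K), 0 < w → SubVar F K w y → IsComponent F y → ¬ GeneralType k K w →
    ∀ G : MvPolynomial (Fin (n + 1)) k, IsForm G → val y G ≠ 0 →
    ∃ x ∈ VarPts k y, val x G ≠ 0 ∧ ∃ v : Fin (n + 1) → k, (∃ j j', v j * x j' ≠ v j' * x j) ∧
      ∀ a : k, ∀ H : MvPolynomial (Fin (n + 1)) k, IsForm H → val y H = 0 →
        val (fun j => x j + a * v j) H = 0

end Pool.Agent.W602.RG
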