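import Pool.Agent.W602.RG.Stm3

/-! General type and finiteness of pointed maps from curves, for projective varieties given by sums
of few high powers of linear forms. -/

set_option autoImplicit false

open FF MvPolynomial
open Pool.Agent.W602.GT (lin val IsForm VarPts SubVar IsComponent GeneralType Cone tn)
open scoped LinearAlgebra.Projectivization

namespace Pool.Agent.W602.RG

section defs

variable {k : Type} [Field k] {n : ℕ} {K : Type} [Field K] [Algebra k K]

/-- The projective variety `V` with generic point `y` is pseudo-geometrically hyperbolic: outside a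
proper closed subset `G = 0`, for every pointed curve there are only finitely many morphisms to `V`
with a given value at the marked point. -/
def PseudoGeomHyp (k : Type) [Field k] {K : Type} [Field K] [Algebra k K]
    (y : Fin (n + 1) → K) : Prop :=
  ∃ G : MvPolynomial (Fin (n + 1)) k, IsForm G ∧ val y G ≠ 0 ∧
    ∀ (L : Type) [Field L] [Algebra k L] [IsFF k L] (c : Place k L),
      ∀ x ∈ VarPts k y, val x G ≠ 0 → (PointedMaps y c x).Finite

/-- The line `x + a v` is contained in the projective variety with generic point `y`. -/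
def LineIn (y : Fin (n + 1) → K) (x v : Fin (n + 1) → k) : Prop :=
  (∃ j j', v j * x j' ≠ v j' * x j) ∧ ∀ a : k, ∀ H : MvPolynomial (Fin (n + 1)) k, IsForm H →
    val y H = 0 → val (fun j => x j + a * v j) H = 0

/-- Outside a proper closed subset `G = 0` there are no lines through the points of the projective
variety `V` with generic point `y` in `V`. -/
def FewLines (k : Type) [Field k] {K : Type} [Field K] [Algebra k K]
    (y : Fin (n + 1) → K) : Prop :=
  ∃ G : MvPolynomial (Fin (n + 1)) k, IsForm G ∧ val y G ≠ 0 ∧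
    ∀ x ∈ VarPts k y, val x G ≠ 0 → ∀ v, ¬ LineIn y x v

end defs

theorem general_iff (hG : S_GNW) (hFN : S_FNW) (hL : S_LNW) (hCV : S_CVW)
    {k : Type} [Field k] [IsAlgClosed k] [CharZero k] {n : ℕ} {ι : Type} [Finite ι]
    {F : ι → MvPolynomial (Fin (n + 1)) k} {s N : ℕ}
    (hF : ∀ e, Pool.Agent.W602.GT.IsPowSum s N (F e)) (hN1 : 1 ≤ N) (hN2 : (s - 1) ^ 2 ≤ N)
    (hN : n * ((s + 1) * tn (s - 1)) ≤ N) {K : Type} [Field K] [Algebra k K] {w : ℕ}
    {y : Fin (n + 1) → K} (hw : 0 < w) (hy : SubVar F K w y) (hcomp : IsComponent F y) :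
    [GeneralType k K w, PseudoGeomHyp k y, FewLines k y].TFAE := by
  tfae_have 1 → 2 := by
    intro hgt
    choose r d l hr hd hFe using hF
    have hF' : F = war r d l := funext hFe
    subst hF'
    have hd0 : ∀ i, 0 < d i := fun i => lt_of_lt_of_le hN1 (hd i)
    have hrd : ∀ i, (r i - 1) ^ 2 ≤ d i := fun i =>
      ((Nat.pow_le_pow_left (Nat.sub_le_sub_right (hr i) 1) 2).trans hN2).trans (hd i)
    obtain ⟨G, hGf, hGy, hGx⟩ := hG k n ι r d l hd0 K w y hw hy hcomp hgt
    refine ⟨G, hGf, hGy, fun L _ _ _ c x hx hxG => ?_⟩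
    obtain ⟨h1, h2⟩ := hGx x hx hxG
    exact hFN k L n ι r d l hd0 hrd K y hy.mem c x hx h1 h2
  tfae_have 2 → 3 := by
    rintro ⟨G, hGf, hGy, h⟩
    refine ⟨G, hGf, hGy, fun x hx hxG v hv => ?_⟩
    obtain ⟨c, hc⟩ := hL k n K y x v hx.1 hv.1 hv.2
    exact hc (h (RatFunc k) c x hx hxG)
  tfae_have 3 → 1 := by
    rintro ⟨G, hGf, hGy, h⟩
    by_contra hgt
    obtain ⟨x, hx, hxG, v, hv1, hv2⟩ := hCV k n ι F s N hF hN1 hN K w y hw hy hcomp hgt G hGf hGy
    exact h x hx hxG v ⟨hv1, hv2⟩
  tfae_finish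

end Pool.Agent.W602.RG
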