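import Pool.Agent.W602.RG.TB
import Pool.Agent.W602.RG.Lnw
import Pool.Agent.W588.RG.ABW
import Pool.Agent.W701.RG.RGW
import Pool.Agent.W977.RG.Htw
import Pool.Agent.W273.RG.FNW
import Pool.Agent.W410.RG.GNW
import Pool.Agent.W605.RG.CVW

/-! General type and finiteness of pointed maps from curves, for projective varieties given by sums
of few high powers of linear forms: the parts. -/

set_option autoImplicit false

namespace Pool.Agent.W602.RG

theorem rgw_all : S_RGW := Pool.Agent.W701.RG.RGW.main Pool.Agent.W588.RG.ABW.main

theorem fnw_all : S_FNW := Pool.Agent.W273.RG.FNW.main rgw_all Pool.Agent.W977.RG.main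

theorem gnw_all : S_GNW := W410.RG.main

theorem cvw_all : S_CVW := Pool.Agent.W605.RG.CVW.main

end Pool.Agent.W602.RG
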